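import Mathlib

set_option autoImplicit false
set_option linter.unusedSectionVars false

/-! # Reduced functional equations at `-1` of products: the algebraic part

Let `A` be a domain over `ℂ` with derivations, `F = h q` in `A`. For a differential operator `P` we have
`F ^ N P(F ^ n) = ρ(n) F ^ n` with a polynomial `ρ = c F ^ N + (α q ^ N + β h ^ N) X + …`
(the coefficient of `ε` in `F ^ (-ε) P(F ^ ε)` is the sum of the ones for `h` and for `q`, as
`log F = log h + log q`). -/

namespace Pool.Agent.K6.H39.RC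

open Polynomial

section Abs

variable {A : Type*} [CommRing A] [Algebra ℂ A]

/-- The polynomial `c F ^ N + (α q ^ N + β h ^ N) X + τ X ^ 2`, `F = h q`. -/
noncomputable def pol (h q : A) (N : ℕ) (c α β : A) (τ : A[X]) : A[X] :=
  C (c * (h * q) ^ N) + C (α * q ^ N + β * h ^ N) * X + τ * X ^ 2

theorem pol_eval (h q : A) (N : ℕ) (c α β : A) (τ : A[X]) (x : A) :
    (pol h q N c α β τ).eval x =
      c * (h * q) ^ N + (α * q ^ N + β * h ^ N) * x + τ.eval x * x ^ 2 := by
  simp [pol]

/-- `u(n) = F ^ (n - N) ρ(n)` with `ρ = c F ^ N + (α q ^ N + β h ^ N) X + τ X ^ 2`. -/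
def SqN (h q : A) (u : ℕ → A) (N : ℕ) : Prop :=
  ∃ (c α β : A) (τ : A[X]), ∀ n : ℕ,
    (h * q) ^ N * u n = (pol h q N c α β τ).eval (n : A) * (h * q) ^ n

theorem SqN.succ {h q : A} {u : ℕ → A} {N : ℕ} (hu : SqN h q u N) : SqN h q u (N + 1) := by
  obtain ⟨c, α, β, τ, e⟩ := hu
  refine ⟨c, α * h, β * q, C (h * q) * τ, fun n => ?_⟩
  have h1 := e n
  rw [pol_eval] at h1 ⊢
  rw [eval_mul, eval_C]
  linear_combination (h * q) * h1

theorem SqN.mono {h q : A} {u : ℕ → A} {N M : ℕ} (hu : SqN h q u N) (hM : N ≤ M) :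
    SqN h q u M := by
  induction M, hM using Nat.le_induction with
  | base => exact hu
  | succ M _ ih => exact ih.succ

/-- `SqN` for some `N` -/
def Sq (h q : A) (u : ℕ → A) : Prop := ∃ N, SqN h q u N

theorem Sq.add {h q : A} {u v : ℕ → A} (hu : Sq h q u) (hv : Sq h q v) :
    Sq h q (fun n => u n + v n) := by
  obtain ⟨N, hu⟩ := hu
  obtain ⟨M, hv⟩ := hv
  obtain ⟨c, α, β, τ, e⟩ := hu.mono (le_max_left N M)
  obtain ⟨c', α', β', τ', e'⟩ := hv.mono (le_max_right N M)
  refine ⟨max N M, c + c', α + α', β + β', τ + τ', fun n => ?_⟩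
  have h1 := e n
  have h2 := e' n
  rw [pol_eval] at h1 h2 ⊢
  rw [eval_add]
  linear_combination h1 + h2

theorem Sq.mulC {h q : A} {u : ℕ → A} (hu : Sq h q u) (x : A) :
    Sq h q (fun n => x * u n) := by
  obtain ⟨N, c, α, β, τ, e⟩ := hu
  refine ⟨N, x * c, x * α, x * β, C x * τ, fun n => ?_⟩
  have h1 := e n
  rw [pol_eval] at h1 ⊢
  rw [eval_mul, eval_C]
  linear_combination x * h1

theorem Sq.mulX {h q : A} {u : ℕ → A} (hu : Sq h q u) :
    Sq h q (fun n => (n : A) * u n) := by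
  obtain ⟨N, c, α, β, τ, e⟩ := hu
  refine ⟨N, 0, c * h ^ N, 0, C (α * q ^ N + β * h ^ N) + X * τ, fun n => ?_⟩
  have h1 := e n
  rw [pol_eval] at h1 ⊢
  rw [eval_add, eval_mul, eval_C, eval_X]
  linear_combination (n : A) * h1

theorem Sq.zero (h q : A) : Sq h q (fun _ => 0) :=
  ⟨0, 0, 0, 0, 0, fun n => by rw [pol_eval]; simp⟩

theorem Sq.sum {K : Type*} {h q : A} (s : Finset K) (u : K → ℕ → A)
    (H : ∀ k ∈ s, Sq h q (u k)) : Sq h q (fun n => ∑ k ∈ s, u k n) := by
  classical
  induction s using Finset.induction_on with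
  | empty => simpa using Sq.zero h q
  | insert k s hk ih =>
    have := (H k (Finset.mem_insert_self k s)).add (ih fun l hl => H l (Finset.mem_insert_of_mem hl))
    simpa [Finset.sum_insert hk] using this

theorem Sq.mulPow {h q : A} {u : ℕ → A} (hu : Sq h q u) (x : A) (m : ℕ) :
    Sq h q (fun n => ((n : A) + x) ^ m * u n) := by
  induction m with
  | zero => simpa using hu
  | succ m ih =>
    have h1 := ih.mulX.add (ih.mulC x)
    have e : (fun n : ℕ => (n : A) * (((n : A) + x) ^ m * u n) + x * (((n : A) + x) ^ m * u n)) =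
        fun n : ℕ => ((n : A) + x) ^ (m + 1) * u n := by
      funext n
      ring
    rwa [e] at h1

theorem Sq.pow (h q : A) : Sq h q (fun n => (h * q) ^ n) :=
  ⟨0, 1, 0, 0, 0, fun n => by rw [pol_eval]; simp⟩

theorem der_eval (D : Derivation ℂ A A) (τ : A[X]) :
    ∃ τ' : A[X], ∀ n : ℕ, D (τ.eval (n : A)) = τ'.eval (n : A) := by
  induction τ using Polynomial.induction_on with
  | C a => exact ⟨C (D a), fun n => by simp⟩
  | add p r hp hr =>
    obtain ⟨p', hp⟩ := hp
    obtain ⟨r', hr⟩ := hr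
    exact ⟨p' + r', fun n => by simp [hp, hr]⟩
  | monomial n a h =>
    refine ⟨C (D a) * X ^ (n + 1), fun m => ?_⟩
    have e : D ((m : A) ^ (n + 1)) = 0 := by
      rw [← Nat.cast_pow, Derivation.map_natCast]
    rw [eval_mul, eval_C, eval_pow, eval_X, Derivation.leibniz, e, eval_mul, eval_C, eval_pow,
      eval_X, smul_eq_mul, smul_eq_mul]
    ring

theorem mul_der_pow (D : Derivation ℂ A A) (a : A) (n : ℕ) :
    a * D (a ^ n) = (n : A) * a ^ n * D a := by
  rcases n with _ | n
  · simp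
  · rw [Derivation.leibniz_pow]
    simp only [Nat.add_sub_cancel, smul_eq_mul, nsmul_eq_mul]
    ring

theorem Sq.der {h q : A} {u : ℕ → A} (hu : Sq h q u) (D : Derivation ℂ A A) :
    Sq h q (fun n => D (u n)) := by
  obtain ⟨N, c, α, β, τ, e⟩ := hu
  obtain ⟨τ', hτ'⟩ := der_eval D τ
  refine ⟨N + 1, D c, h * D α - (N : A) * D h * α + c * D h * h ^ N,
    q * D β - (N : A) * D q * β + c * D q * q ^ N,
    C (h * q) * τ' + C (D (h * q) * (α * q ^ N + β * h ^ N)) + C (D (h * q)) * X * τ -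
      C ((N : A) * D (h * q)) * τ, fun n => ?_⟩
  have h1 := e n
  have h2 := congrArg D h1
  rw [pol_eval] at h1 h2 ⊢
  have hF := mul_der_pow D (h * q) N
  have hn := mul_der_pow D (h * q) n
  have hh := mul_der_pow D h N
  have hq := mul_der_pow D q N
  have hhq : D (h * q) = h * D q + q * D h := by
    rw [Derivation.leibniz, smul_eq_mul, smul_eq_mul]
  have hc : D (c * (h * q) ^ N) = c * D ((h * q) ^ N) + (h * q) ^ N * D c := by
    rw [Derivation.leibniz, smul_eq_mul, smul_eq_mul]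
  have hα : D (α * q ^ N) = α * D (q ^ N) + q ^ N * D α := by
    rw [Derivation.leibniz, smul_eq_mul, smul_eq_mul]
  have hβ : D (β * h ^ N) = β * D (h ^ N) + h ^ N * D β := by
    rw [Derivation.leibniz, smul_eq_mul, smul_eq_mul]
  have hx2 : D ((n : A) ^ 2) = 0 := by
    rw [← Nat.cast_pow, Derivation.map_natCast]
  have hx : D (n : A) = 0 := Derivation.map_natCast _ _
  have hP : D (c * (h * q) ^ N + (α * q ^ N + β * h ^ N) * (n : A) +
      τ.eval (n : A) * (n : A) ^ 2) = c * D ((h * q) ^ N) + (h * q) ^ N * D c +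
      (α * D (q ^ N) + q ^ N * D α + (β * D (h ^ N) + h ^ N * D β)) * (n : A) +
      τ'.eval (n : A) * (n : A) ^ 2 := by
    rw [map_add, map_add, hc, Derivation.leibniz D (α * q ^ N + β * h ^ N),
      Derivation.leibniz D (τ.eval (n : A)), hx, hx2, map_add, hα, hβ, hτ']
    simp only [smul_eq_mul]
    ring
  rw [Derivation.leibniz, Derivation.leibniz, hP] at h2
  simp only [smul_eq_mul] at h2
  simp only [eval_sub, eval_add, eval_mul, eval_C, eval_X]
  rw [hhq] at hF hn ⊢
  linear_combination (h * q) * h2 - u n * hF - (N : A) * (h * D q + q * D h) * h1 +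
    (c * (h * q) ^ N + (α * q ^ N + β * h ^ N) * (n : A) + τ.eval (n : A) * (n : A) ^ 2) * hn +
    (h * q) ^ n * c * hF + (h * q) ^ n * h * α * (n : A) * hq + (h * q) ^ n * q * β * (n : A) * hh

theorem natCast_inj_alg (hA : Nontrivial A) : Function.Injective (Nat.cast : ℕ → A) := by
  intro a b hab
  have h1 : algebraMap ℂ A (a : ℂ) = algebraMap ℂ A (b : ℂ) := by
    rw [map_natCast, map_natCast]; exact hab
  have h2 := (algebraMap ℂ A).injective h1
  exact_mod_cast h2

/-- **The functional equation at `-1`.** -/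
theorem at_minus_one [IsDomain A] (h q : A) (hF : h * q ≠ 0) (u : ℕ → A) (hu : Sq h q u)
    (B : A[X]) (e : ∀ k : ℕ, ((k : A) + 1) * (B.eval (k : A) * (h * q) ^ k) = u (k + 1)) :
    ∃ (M : ℕ) (α β : A), (h * q) ^ M * B.eval (-1) = α * q ^ (M + 1) + β * h ^ (M + 1) := by
  obtain ⟨N, hN⟩ := hu
  obtain ⟨c, α, β, τ, e1⟩ := hN.succ
  refine ⟨N, α, β, ?_⟩
  have key : C ((h * q) ^ (N + 1)) * (X * B.comp (X - 1)) =
      C (h * q) * pol h q (N + 1) c α β τ := by
    refine Polynomial.eq_of_infinite_eval_eq _ _ ?_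
    have hinj : Function.Injective (fun n : ℕ => ((n + 1 : ℕ) : A)) := fun a b hab => by
      have := natCast_inj_alg (inferInstance : Nontrivial A) hab
      omega
    refine (Set.infinite_range_of_injective hinj).mono ?_
    rintro _ ⟨k, rfl⟩
    have h1 := e1 (k + 1)
    rw [← e k] at h1
    have h2 : (h * q) ^ k ≠ 0 := pow_ne_zero _ hF
    change eval _ _ = eval _ _
    rw [eval_mul, eval_mul, eval_mul, eval_C, eval_C, eval_X, eval_comp, eval_sub, eval_X, eval_one]
    apply mul_left_cancel₀ h2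
    have h3 : ((k + 1 : ℕ) : A) - 1 = (k : A) := by push_cast; ring
    rw [h3]
    have h4 : ((k + 1 : ℕ) : A) = (k : A) + 1 := by push_cast; ring
    rw [h4] at h1
    change (h * q) ^ k * ((h * q) ^ (N + 1) * (((k + 1 : ℕ) : A) * eval (k : A) B)) =
      (h * q) ^ k * (h * q * eval ((k + 1 : ℕ) : A) (pol h q (N + 1) c α β τ))
    rw [h4]
    linear_combination h1
  have h1 := congrArg (fun P : A[X] => P.coeff 1) key
  simp only [coeff_C_mul] at h1
  rw [coeff_X_mul, coeff_zero_eq_eval_zero, eval_comp, eval_sub, eval_X, eval_one, zero_sub] at h1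
  have h2 : (pol h q (N + 1) c α β τ).coeff 1 = α * q ^ (N + 1) + β * h ^ (N + 1) := by
    rw [pol, coeff_add, coeff_add, coeff_C, if_neg one_ne_zero, coeff_C_mul, coeff_X_one,
      coeff_mul_X_pow', if_neg (by norm_num)]
    ring
  rw [h2] at h1
  apply mul_left_cancel₀ hF
  rw [← h1]
  ring

/-- Coprime elements. -/
theorem mem_of_coprime [IsDomain A] (h q : A) (hF : h * q ≠ 0)
    (hc : ∀ a, q ∣ h * a → q ∣ a) (M : ℕ) (b α β : A)
    (e : (h * q) ^ M * b = α * q ^ (M + 1) + β * h ^ (M + 1)) : ∃ x y, b = x * h + y * q := by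
  have hh : h ≠ 0 := left_ne_zero_of_mul hF
  have hq : q ≠ 0 := right_ne_zero_of_mul hF
  have hc' : ∀ a, h ∣ a * q → h ∣ a := by
    rintro a ⟨c, hc1⟩
    obtain ⟨c', rfl⟩ := hc c ⟨a, by rw [← hc1]; ring⟩
    refine ⟨c', mul_right_cancel₀ hq ?_⟩
    rw [hc1]; ring
  have h1 : ∀ (n : ℕ) (a : A), q ∣ h ^ n * a → q ∣ a := by
    intro n
    induction n with
    | zero => intro a ha; simpa using ha
    | succ n ih =>
      intro a ha
      refine ih a (hc _ ?_)
      rwa [← mul_assoc, ← pow_succ']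
  have h2 : ∀ (m n : ℕ) (a : A), q ^ m ∣ h ^ n * a → q ^ m ∣ a := by
    intro m
    induction m with
    | zero => intro n a _; simp
    | succ m ih =>
      intro n a ha
      obtain ⟨a', rfl⟩ := h1 n a (dvd_trans (dvd_pow_self q (Nat.succ_ne_zero m)) ha)
      rw [pow_succ']
      refine mul_dvd_mul_left q (ih n a' ?_)
      have h3 : q * q ^ m ∣ q * (h ^ n * a') := by
        rw [← pow_succ']
        have : h ^ n * (q * a') = q * (h ^ n * a') := by ring
        rwa [this] at ha
      exact (mul_dvd_mul_iff_left hq).1 h3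
  have h3 : ∀ (m : ℕ) (a : A), h ^ m ∣ a * q → h ^ m ∣ a := by
    intro m
    induction m with
    | zero => intro a _; simp
    | succ m ih =>
      intro a ha
      obtain ⟨a', rfl⟩ := hc' a (dvd_trans (dvd_pow_self h (Nat.succ_ne_zero m)) ha)
      rw [pow_succ']
      refine mul_dvd_mul_left h (ih a' ?_)
      have h4 : h * h ^ m ∣ h * (a' * q) := by
        rw [← pow_succ', ← mul_assoc]
        exact ha
      exact (mul_dvd_mul_iff_left hh).1 h4
  obtain ⟨β', rfl⟩ := h2 M (M + 1) β ⟨h ^ M * b - α * q, by linear_combination -e⟩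
  have e2 : h ^ M * (b - β' * h) = α * q := by
    apply mul_left_cancel₀ (pow_ne_zero M hq)
    linear_combination e
  obtain ⟨α', rfl⟩ := h3 M α ⟨_, e2.symm⟩
  refine ⟨β', α', ?_⟩
  apply mul_left_cancel₀ (pow_ne_zero M hh)
  linear_combination e2

end Abs

end Pool.Agent.K6.H39.RC
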