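import Pool.Agent.W574.RO.Defs
import Pool.Agent.W425.SM.Defs
import Pool.Agent.W422.GC.Defs

set_option autoImplicit false

/-! # Definitions for the classes of germs at the origin -/

namespace Pool.Agent.K6.H39.RC

open MvPolynomial Pool.Agent.W574.SM Pool.Agent.W574.RO Pool.Agent.W425.SM Pool.Agent.W422.GC
open Pool.Agent.H628R4.TZ (ordAlong)

/-! ## formal coordinates, operators, stable contact equivalence -/

section Formal

variable {N : ℕ}

/-- The formal power series `φ_i` are formal coordinates at the origin: they vanish there and the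
determinant of their linear parts is not zero. -/
def Coord (φ : Fin N → MvPowerSeries (Fin N) ℂ) : Prop :=
  (Matrix.of fun i j => MvPowerSeries.coeff (Finsupp.single j 1) (φ i)).det ≠ 0 ∧
    ∀ i, MvPowerSeries.constantCoeff (φ i) = 0

/-- `f(x) + y_1 z_1 + ⋯ + y_k z_k` -/
noncomputable def stable (f : MvPowerSeries (Fin N) ℂ) (k : ℕ) :
    MvPowerSeries (Fin (N + (k + k))) ℂ :=
  MvPowerSeries.rename (Fin.castAdd (k + k)) f +
    ∑ i : Fin k, MvPowerSeries.X (Fin.natAdd N (Fin.castAdd k i)) *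
      MvPowerSeries.X (Fin.natAdd N (Fin.natAdd k i))

/-- `f(x) + y_1 z_1 + ⋯ + y_k z_k` becomes the polynomial `g` in suitable formal coordinates `φ` at the
origin, up to a factor `u` which is a unit. -/
def BecomesS (f : MvPowerSeries (Fin N) ℂ) (k : ℕ) (g : MvPolynomial (Fin (N + (k + k))) ℂ) :
    Prop :=
  ∃ (φ : Fin (N + (k + k)) → MvPowerSeries (Fin (N + (k + k))) ℂ)
    (u : MvPowerSeries (Fin (N + (k + k))) ℂ), Coord φ ∧ IsUnit u ∧
    MvPowerSeries.subst φ (stable f k) = u * (g : MvPowerSeries (Fin (N + (k + k))) ℂ)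

/-- Differential operators on formal power series. -/
noncomputable def DO (n : ℕ) : Subalgebra ℂ (Module.End ℂ (MvPowerSeries (Fin n) ℂ)) :=
  Algebra.adjoin ℂ (Set.range (fun u : MvPowerSeries (Fin n) ℂ => LinearMap.mulLeft ℂ u) ∪
    Set.range (fun i : Fin n => ((MvPowerSeries.pderiv ℂ i : Derivation ℂ
      (MvPowerSeries (Fin n) ℂ) (MvPowerSeries (Fin n) ℂ)) :
        MvPowerSeries (Fin n) ℂ →ₗ[ℂ] MvPowerSeries (Fin n) ℂ)))

/-- `b(s) f ^ s = P(s) f ^ (s + 1)`, for `s ∈ ℕ`, with `P(s) = ∑_m s ^ m P_m`, the `P_m` differential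
operators with formal power series as coefficients. -/
def IsFormalB (f : MvPowerSeries (Fin N) ℂ) (b : Polynomial ℂ) : Prop :=
  ∃ P : ℕ →₀ DO N, ∀ s : ℕ, b.eval (s : ℂ) • f ^ s =
    P.sum fun m Q => ((s : ℂ) ^ m) • (Q : Module.End ℂ (MvPowerSeries (Fin N) ℂ)) (f ^ (s + 1))

end Formal

lemma comp_nzd (k : ℕ) : nonZeroDivisors (Polynomial ℂ) ≤ (nonZeroDivisors (Polynomial ℂ)).comap
    (Polynomial.compRingHom (Polynomial.X - Polynomial.C (k : ℂ))) := by
  intro p hp
  rw [Submonoid.mem_comap, mem_nonZeroDivisors_iff_ne_zero]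
  intro h0
  refine (mem_nonZeroDivisors_iff_ne_zero.1 hp) ?_
  have := congrArg (fun q : Polynomial ℂ => q.comp (Polynomial.X + Polynomial.C (k : ℂ))) h0
  simpa [Polynomial.comp_assoc] using this

/-- `Z(s) ↦ Z(s - k)` -/
noncomputable def shift (k : ℕ) : RatFunc ℂ →+* RatFunc ℂ :=
  RatFunc.mapRingHom (Polynomial.compRingHom (Polynomial.X - Polynomial.C (k : ℂ))) (comp_nzd k)

/-- `Z_f` for `f`, from `Z` for `f(x) + y_1 z_1 + ⋯ + y_k z_k`:
`1 - Z_f(s) = (1 - Z(s - k)) s (s - k + 1) / ((s - k) (s + 1))`. -/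
noncomputable def unst (k : ℕ) (Z : RatFunc ℂ) : RatFunc ℂ :=
  1 - (1 - shift k Z) * (RatFunc.X * (RatFunc.X - RatFunc.C (k : ℂ) + 1)) *
    ((RatFunc.X - RatFunc.C (k : ℂ)) * (RatFunc.X + 1))⁻¹

/-! ## constructions with ideals and hypersurfaces -/

/-- The hypersurface `∑_j y_j f_j(x)`, with further variables `y_j`. -/
@[reducible] noncomputable def univF (A : Fam) : Fam :=
  ⟨A.ι ⊕ A.σ, Fin 1, fun _ => ∑ j, X (Sum.inl j) * rename Sum.inr (A.f j)⟩

/-- The hypersurface `∑_j y_j f_j(x) + g(z)`, with further variables `y_j`. -/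
@[reducible] noncomputable def tsF (A : Fam) (τ : Type) (g : MvPolynomial τ ℂ) : Fam :=
  ⟨(A.ι ⊕ A.σ) ⊕ τ, Fin 1, fun _ =>
    rename Sum.inl (∑ j, X (Sum.inl j) * rename Sum.inr (A.f j) : MvPolynomial (A.ι ⊕ A.σ) ℂ) +
      rename Sum.inr g⟩

/-- The ideal `h ∏_t (f_{t, j})_j ^ a_t`, generated by the `h ∏_t ∏_{i < a_t} f_{t, J(t, i)}`. -/
@[reducible] noncomputable def genF {σ τ : Type} [Fintype τ] [DecidableEq τ] {κ : τ → Type}
    [∀ t, Fintype (κ t)] (a : τ → ℕ) (h : MvPolynomial σ ℂ)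
    (f : (t : τ) → κ t → MvPolynomial σ ℂ) : Fam :=
  ⟨σ, (q : Σ t, Fin (a t)) → κ q.1, fun J => h * ∏ q, f q.1 (J q)⟩

/-- The hypersurface `h(x) ∏_t (∑_j y_{t, j} f_{t, j}(x)) ^ a_t`, with further variables `y_{t, j}`. -/
@[reducible] noncomputable def formF {σ τ : Type} [Fintype τ] {κ : τ → Type}
    [∀ t, Fintype (κ t)] (a : τ → ℕ) (h : MvPolynomial σ ℂ)
    (f : (t : τ) → κ t → MvPolynomial σ ℂ) : Fam :=
  ⟨(Σ t, κ t) ⊕ σ, Fin 1, fun _ => rename Sum.inr h *
    ∏ t, (∑ j, X (Sum.inl ⟨t, j⟩) * rename Sum.inr (f t j)) ^ a t⟩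

/-! ## zeta functions -/

section Toric

variable {r N : ℕ}

/-- The local topological zeta function at the origin of a polynomial `∑ a_j x ^ (v j)` with
affinely independent exponents, on the toric modification given by `R`. -/
noncomputable def zetaSparse (v : Fin r → Fin N → ℕ) (R : SmoothFan N) : RatFunc ℂ :=
  open Classical in
  ∑ σ ∈ R.cones.filter (fun σ => ∀ l, ∃ ρ ∈ σ, ρ l ≠ 0),
    (((chiO σ - chiH v σ : ℤ) : RatFunc ℂ) +
      ((chiH v σ : ℤ) : RatFunc ℂ) * (RatFunc.X + 1)⁻¹) *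
    ∏ ρ ∈ σ, ((ordAlong v ρ : RatFunc ℂ) * RatFunc.X + ((∑ l, ρ l : ℕ) : RatFunc ℂ))⁻¹

/-- The local topological zeta function at the origin of a polynomial with generic coefficients at the
vertices `v j` of its Newton polyhedron, on the toric modification given by `R`. -/
noncomputable def zetaGen (v : Fin r → Fin N → ℕ) (R : SmoothFan N) : RatFunc ℂ :=
  open Classical in
  ∑ σ ∈ R.cones.filter (fun σ => ∀ l, ∃ ρ ∈ σ, ρ l ≠ 0),
    (RatFunc.C (((chiO σ : ℝ) - chiG v R σ : ℝ) : ℂ) +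
      RatFunc.C ((chiG v R σ : ℝ) : ℂ) * (RatFunc.X + 1)⁻¹) *
    ∏ ρ ∈ σ, ((ordAlong v ρ : RatFunc ℂ) * RatFunc.X + ((∑ l, ρ l : ℕ) : RatFunc ℂ))⁻¹

/-- `w` lies in the Newton polyhedron (convex hull plus positive orthant) of the `v_j`. -/
def InNP (v : Fin r → Fin N → ℕ) (w : Fin N →₀ ℕ) : Prop :=
  ∃ l : Fin r → ℝ, (∀ j, 0 ≤ l j) ∧ ∑ j, l j = 1 ∧ ∀ i, ∑ j, l j * (v j i : ℝ) ≤ (w i : ℝ)

/-- `h` consists of terms of higher order: there is a weight `ρ` with `ρ(v_j) = 1` for all `j`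
and `ρ(w) > 1` for all the exponents `w` of `h`. -/
def HigherOrder (v : Fin r → Fin N → ℕ) (h : MvPolynomial (Fin N) ℂ) : Prop :=
  ∃ ρ : Fin N → ℝ, (∀ j, ∑ i, ρ i * (v j i : ℝ) = 1) ∧
    ∀ w ∈ h.support, 1 < ∑ i, ρ i * (w i : ℝ)

/-- The exponents of `h` lie in the Newton polyhedron of the `v_j`, and not on its compact
faces. -/
def AboveNP (v : Fin r → Fin N → ℕ) (h : MvPolynomial (Fin N) ℂ) : Prop :=
  ∀ w ∈ h.support, ∀ x : Fin N → ℝ, (∀ i, 0 < x i) →
    ∃ j, ∑ i, (v j i : ℝ) * x i < ∑ i, (w i : ℝ) * x i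

end Toric

/-- The topological zeta function of an ideal: `a i = ord_{E_i} I`, `k i = ord_{E_i} K`, and
`χ S` is the Euler characteristic of the stratum `E_S°`. -/
noncomputable def zetaRes {J : Type} [Fintype J] [DecidableEq J] (a k : J → ℕ)
    (χ : Finset J → ℤ) : RatFunc ℂ :=
  ∑ S : Finset J, (χ S : RatFunc ℂ) *
    ∏ i ∈ S, 1 / ((a i : RatFunc ℂ) * RatFunc.X + (k i : RatFunc ℂ) + 1)

/-! ## Rees divisors -/

section Rees

variable {σ τ : Type} [Fintype σ] [DecidableEq σ] [Fintype τ] {κ : τ → Type}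
  [∀ t, Fintype (κ t)]

/-- A formal chart at a point `p` of a prime divisor `E` over the affine space, for ideals
`I_t = (g t j)_j`: formal power series `ξ i` (the coordinates `x i` of the affine space) in formal
coordinates indexed by `σ`, among them the equation `z` of `E`, such that the Jacobian determinant
of `x = ξ` is `z ^ k` times a unit and each ideal `I_t` becomes the ideal `(z ^ m t)`, generated by the
pull-back of `g t (j0 t)`. -/
structure RChart (g : (t : τ) → κ t → MvPolynomial σ ℂ) where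
  /-- the index of the coordinate which defines `E` -/
  z : σ
  /-- the chart -/
  ξ : σ → MvPowerSeries σ ℂ
  /-- the multiplicity of `E` in the relative canonical divisor -/
  k : ℕ
  /-- the orders of the ideals along `E` -/
  m : τ → ℕ
  /-- the indices of generators of minimal order -/
  j0 : (t : τ) → κ t
  jacobian : ∃ U : MvPowerSeries σ ℂ, MvPowerSeries.constantCoeff U ≠ 0 ∧
    (Matrix.of fun t i => MvPowerSeries.pderiv ℂ t (ξ i)).det = MvPowerSeries.X z ^ k * U
  divides : ∀ t j, MvPowerSeries.X z ^ m t ∣ aeval ξ (g t j)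
  attained : ∀ t, ∃ U : MvPowerSeries σ ℂ, MvPowerSeries.constantCoeff U ≠ 0 ∧
    aeval ξ (g t (j0 t)) = MvPowerSeries.X z ^ m t * U

/-- `E` is a Rees divisor of the product of the ideals `I_t` with `t ∈ A`, and the map from `E` to
the product of the affine space and of the projective spaces of the generators of these ideals is
unramified at `p`: there are functions `w t` which, together with the equation `w z = z` of `E`, are
formal coordinates at `p`, and each of which is the pull-back of a polynomial `q(x)` or of a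
quotient `(∑ j, c_j g s j) / g s (j0 s)`, `s ∈ A`. -/
def RChart.IsRees {g : (t : τ) → κ t → MvPolynomial σ ℂ} (E : RChart g) (A : τ → Prop) : Prop :=
  ∃ w : σ → MvPowerSeries σ ℂ, w E.z = MvPowerSeries.X E.z ∧
    (∀ t, MvPowerSeries.constantCoeff (w t) = 0) ∧
    (Matrix.of fun s t => MvPowerSeries.constantCoeff (MvPowerSeries.pderiv ℂ s (w t))).det ≠ 0 ∧
    ∀ t, t ≠ E.z → (∃ q : MvPolynomial σ ℂ, aeval E.ξ q = w t) ∨
      ∃ s, A s ∧ ∃ c : κ s → ℂ, ∑ j, c j • aeval E.ξ (g s j) = aeval E.ξ (g s (E.j0 s)) * w t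

/-- The number `-ν / N` comes from a Rees divisor `E` of the product of the ideals `I_t` with
`a t ≠ 0`, over a point at which `H` does not vanish: `ν / N = (k_E + 1 + l) / N_E`, where `k_E` is the
multiplicity of `E` in the relative canonical divisor, `N_E` is the order of `∏ t, I_t ^ a t` along
`E`, and `l < N_E` is the order along `E` of a polynomial `p`. -/
def OfRees (g : (t : τ) → κ t → MvPolynomial σ ℂ) (a : τ → ℕ) (H : MvPolynomial σ ℂ)
    (ν N : ℕ) : Prop :=
  ∃ E : RChart g, (E.IsRees fun t => a t ≠ 0) ∧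
    MvPowerSeries.constantCoeff (aeval E.ξ H) ≠ 0 ∧
    ∃ (l : ℕ) (p : MvPolynomial σ ℂ), l < ∑ t, a t * E.m t ∧
      (∃ U : MvPowerSeries σ ℂ, MvPowerSeries.constantCoeff U ≠ 0 ∧
        aeval E.ξ p = MvPowerSeries.X E.z ^ l * U) ∧
      ν * ∑ t, a t * E.m t = (E.k + 1 + l) * N

end Rees

/-! ## arrangements of linear subspaces -/

/-- The common zeros of the linear forms with the coefficients `c j`. -/
def common {σ κ : Type} [Fintype σ] (c : κ → σ → ℂ) : Submodule ℂ (σ → ℂ) where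
  carrier := {x | ∀ j, c j ⬝ᵥ x = 0}
  add_mem' := fun {x y} hx hy j => by rw [dotProduct_add, hx j, hy j, add_zero]
  zero_mem' := fun j => by rw [dotProduct_zero]
  smul_mem' := fun r x hx j => by rw [dotProduct_smul, hx j, smul_zero]

/-- The products of linear forms, `e s` of them with the coefficients `c s j`: generators of the
product of the powers `I(H s) ^ e s` of the ideals of the subspaces `H s = common (c s)`. -/
noncomputable def arrF {σ S : Type} [Fintype σ] [Fintype S] [DecidableEq S] {κ : S → Type}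
    [∀ s, Fintype (κ s)] (c : (s : S) → κ s → σ → ℂ) (e : S → ℕ) : Fam :=
  ⟨σ, (p : Σ s, Fin (e s)) → κ p.1, fun J => ∏ p, ∑ i, C (c p.1 (J p) i) * X i⟩

/-- The multiplicity `∑ e s`, over the `s` with `G ⊆ H s`. -/
noncomputable def multF {V : Type} [AddCommGroup V] [Module ℂ V] {S : Type} [Fintype S]
    (H : S → Submodule ℂ V) (e : S → ℕ) (G : Submodule ℂ V) : ℕ :=
  open Classical in ∑ s, if G ≤ H s then e s else 0

/-- `G` is a Rees flat of the subspaces `H s`, `s ∈ A`: it is contained in one of them, and there is a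
vector `u` which is contained in none of the `H s ⊇ G`, `s ∈ A`, such that the intersection of the
subspaces `H s + ℂ u`, over the `s ∈ A` with `G ⊆ H s`, is contained in `G + ℂ u`. -/
def ReesFlat {V : Type} [AddCommGroup V] [Module ℂ V] {S : Type} (H : S → Submodule ℂ V)
    (A : S → Prop) (G : Submodule ℂ V) : Prop :=
  (∃ s, A s ∧ G ≤ H s) ∧ ∃ u : V, (∀ s, A s → G ≤ H s → u ∉ H s) ∧
    ∀ v : V, (∀ s, A s → G ≤ H s → v ∈ H s ⊔ Submodule.span ℂ {u}) →
      v ∈ G ⊔ Submodule.span ℂ {u}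

end Pool.Agent.K6.H39.RC
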