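import Mathlib

set_option autoImplicit false

/-! # Germs which are not powers of irreducible germs -/

namespace Pool.Agent.K6.H39.RC

open MvPolynomial

variable {σ : Type}

/-- the Taylor expansion of a polynomial at the point `p`, as a formal power series -/
noncomputable def taylor (p : σ → ℂ) (g : MvPolynomial σ ℂ) : MvPowerSeries σ ℂ :=
  ((aeval (fun i => X i + C (p i)) g : MvPolynomial σ ℂ) : MvPowerSeries σ ℂ)

/-- The germ of `g` at the point `p` is not of the form unit times power of an irreducible germ: the
Taylor expansion of `g` at `p` is the product of two formal power series `u`, `v` without constant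
terms such that `v` is not a zero divisor modulo `u`. -/
def Splits (p : σ → ℂ) (g : MvPolynomial σ ℂ) : Prop :=
  ∃ u v : MvPowerSeries σ ℂ, taylor p g = u * v ∧ MvPowerSeries.constantCoeff u = 0 ∧
    MvPowerSeries.constantCoeff v = 0 ∧ ∀ a, v ∣ u * a → v ∣ a

end Pool.Agent.K6.H39.RC
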