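import Pool.Agent.N103.ZDefs
import Pool.Agent.W574.CN.Defs
import Pool.Agent.Y229.LPDefs
import Pool.Agent.K6.H39.RC.SDefs
import Pool.Agent.K6.H39.RC.CDefs

set_option autoImplicit false

/-! # Germs at the origin: classes of ideals and hypersurfaces with their local topological zeta
functions, closed under sums, products, powers, Thom-Sebastiani sums and stable contact
equivalence -/

namespace Pool.Agent.K6.H39.RC

open MvPolynomial Pool.Agent.W574.SM Pool.Agent.W574.CN Pool.Agent.W574.RO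
open Pool.Agent.Y229 (lap lap2)
open Pool.Agent.W425.SM (SmoothFan Principal sparse)
open Pool.Agent.N103 (FF PointZeta)

/-- `BaseI A Z`: germs at the origin of ideals, with their local topological zeta functions `Z`. -/
inductive BaseI : Fam → RatFunc ℂ → Prop
  /-- the unit ideal, near the origin -/
  | unit (A : Fam) (hfin : Finite A.σ) (j : A.ι) (hj : constantCoeff (A.f j) ≠ 0) : BaseI A 1
  /-- the ideal `(x ^ m)` of `ℂ[x]` -/
  | power (m : ℕ) (hm : 1 ≤ m) : BaseI ⟨Fin 1, Fin 1, fun _ => X 0 ^ m⟩ (fac m 1)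
  /-- the non-zero ideals of `ℂ[x, y]` -/
  | plane (r : ℕ) (f : Fin r → MvPolynomial (Fin 2) ℂ) (hf : ∃ j, f j ≠ 0) (Z : RatFunc ℂ)
      (hZ : LocalZeta f 0 1 0 1 Z) : BaseI ⟨Fin 2, Fin r, f⟩ Z
  /-- the ideals of `ℂ[x₀, x₁, x₂]` generated by forms of degree `d > 0`, three of which are
  algebraically independent (their Jacobian determinant is not zero) -/
  | cone (r : ℕ) (f : Fin r → MvPolynomial (Fin 3) ℂ) (d : ℕ) (hd : 0 < d)
      (hf : ∀ j, (f j).IsHomogeneous d) (e : Fin 3 → Fin r)
      (he : (Matrix.of fun s t => pderiv s (f (e t))).det ≠ 0) (Z : RatFunc ℂ)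
      (hZ : ConeZeta f d Z) : BaseI ⟨Fin 3, Fin r, f⟩ Z
  /-- the ideals of `ℂ[x₀, ..., xₙ]` generated by forms of degree `d > 0` without a common zero outside
  the origin, `n + 1` of which are algebraically independent -/
  | free (n r : ℕ) (f : Fin r → MvPolynomial (Fin (n + 1)) ℂ) (d : ℕ) (hd : 0 < d)
      (hf : ∀ j, (f j).IsHomogeneous d) (h0 : ∀ p, (∀ j, eval p (f j) = 0) → p = 0)
      (e : Fin (n + 1) → Fin r) (he : (Matrix.of fun s t => pderiv s (f (e t))).det ≠ 0) :
      BaseI ⟨Fin (n + 1), Fin r, f⟩ (((n + 1 : ℕ) : RatFunc ℂ) * fac d (n + 1))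
  /-- the principal ideals generated by `h(x₁, x₂) (f₀(x₁, x₂) + ∑ y_j f_j(x₁, x₂)) ^ a` -/
  | lin (κ : Type) [Fintype κ] (h : MvPolynomial (Fin 2) ℂ)
      (f : Option κ → MvPolynomial (Fin 2) ℂ) (a : ℕ) (ha : 1 ≤ a) (hF : FF h f a ≠ 0)
      (Z : RatFunc ℂ) (hZ : PointZeta fac 1 h f a 0 0 Z) :
      BaseI ⟨Fin 2 ⊕ κ, Fin 1, fun _ => FF h f a⟩ Z
  /-- the products `∏ t, I_t ^ a t`, `I_t = (g t j)_j`, with `zetaRes` for the divisors `E_i`, `i ∈ J`, of
  a log resolution, `m i t = ord_{E_i} I_t`, `k i = ord_{E_i} K`, and the Euler characteristics `χ S` of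
  the parts of the strata over the origin, such that for all `E_i` which occur in a stratum with
  `χ S ≠ 0` the number `-(k i + 1) / ∑ t, a t * m i t` comes from Rees divisors near the origin -/
  | rees (σ T J : Type) [Fintype σ] [DecidableEq σ] [Fintype T] [DecidableEq T] [Fintype J]
      [DecidableEq J] (κ : T → Type) [∀ t, Fintype (κ t)]
      (g : (t : T) → κ t → MvPolynomial σ ℂ) (hg : ∀ t, ∃ j, g t j ≠ 0) (a : T → ℕ)
      (k : J → ℕ) (m : J → T → ℕ) (χ : Finset J → ℤ)
      (h : ∀ i, 0 < ∑ t, a t * m i t → (∃ S, χ S ≠ 0 ∧ i ∈ S) →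
        ∀ H : MvPolynomial σ ℂ, constantCoeff H ≠ 0 →
          OfRees g a H (k i + 1) (∑ t, a t * m i t)) :
      BaseI ⟨σ, (q : Σ t, Fin (a t)) → κ q.1, fun J => ∏ q, g q.1 (J q)⟩
        (zetaRes (fun i => ∑ t, a t * m i t) k χ)
  /-- the products `∏_s I(L_s) ^ e_s`, where `L_s = common (c s)` is a proper linear subspace, with
  `zetaRes` for the wonderful model of a building set `G` of Rees flats of the arrangement, with the
  Euler characteristics `χ` of the parts of the strata over the origin -/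
  | arr (σ S I : Type) [Fintype σ] [DecidableEq σ] [Fintype S] [DecidableEq S] [Fintype I]
      [DecidableEq I] (κ : S → Type) [∀ s, Fintype (κ s)] (c : (s : S) → κ s → σ → ℂ)
      (hc : ∀ s, ∃ j, c s j ≠ 0) (e : S → ℕ) (G : I → Submodule ℂ (σ → ℂ))
      (hG : ∀ i, ReesFlat (fun s => common (c s)) (fun s => e s ≠ 0) (G i)) (χ : Finset I → ℤ) :
      BaseI (arrF c e) (zetaRes (fun i => multF (fun s => common (c s)) e (G i))
        (fun i => Fintype.card σ - Module.finrank ℂ (G i) - 1) χ)

/-- Polynomials `G F v h` in the coefficients, one for each field `F ⊆ ℂ`, tuple `v` of exponents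
and polynomial `h` over `F`. -/
abbrev GenCond : Type := (r N : ℕ) → (F : Subfield ℂ) → (Fin r → Fin N → ℕ) →
  MvPolynomial (Fin N) F → MvPolynomial (Fin r) F

/-- `BaseH G A Z`: germs of hypersurfaces at the origin, with their local topological zeta
functions `Z`. -/
inductive BaseH (G : GenCond) : Fam → RatFunc ℂ → Prop
  /-- the polynomials `∑_j a_j x ^ (v j) + h`, where `h` has coefficients in the field `F` and its
  exponents lie in the Newton polyhedron of the `v j ≠ 0`, and the `a_j` satisfy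
  `(G F v h)(a) ≠ 0` -/
  | generic (r N : ℕ) (hr : 1 ≤ r) (F : Subfield ℂ) (v : Fin r → Fin N → ℕ)
      (hv : Function.Injective v) (hv0 : ∀ j, v j ≠ 0) (h : MvPolynomial (Fin N) F)
      (hh : ∀ w ∈ h.support, InNP v w) (a : Fin r → ℂ) (ha : aeval a (G r N F v h) ≠ 0)
      (R : SmoothFan N) (hR : Principal v R) :
      BaseH G ⟨Fin N, Fin 1, fun _ => sparse v a + MvPolynomial.map (algebraMap F ℂ) h⟩
        (zetaGen v R)
  /-- the polynomials `∑_j a_j x ^ (v j) + h`, `a_j ≠ 0`, with affinely independent exponents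
  `v j ≠ 0`, where `h = 0` or `h` is of higher order, see `HigherOrder` and `AboveNP` -/
  | sparse (r N : ℕ) (hr : 1 ≤ r) (v : Fin r → Fin N → ℕ) (a : Fin r → ℂ)
      (h : MvPolynomial (Fin N) ℂ)
      (hv : AffineIndependent ℚ (fun j => (fun i => (v j i : ℚ) : Fin N → ℚ)))
      (hv0 : ∀ j, v j ≠ 0) (ha : ∀ j, a j ≠ 0) (h1 : h = 0 ∨ HigherOrder v h) (h2 : AboveNP v h)
      (R : SmoothFan N) (hR : Principal v R) :
      BaseH G ⟨Fin N, Fin 1, fun _ => sparse v a + h⟩ (zetaSparse v R)

/-- Two classes of germs at the origin, given by generators, with their local topological zeta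
functions: `Germs G false A Z` for ideals and `Germs G true A Z` for principal ideals
(hypersurfaces). They are the smallest classes with the following properties. -/
inductive Germs (G : GenCond) : Bool → Fam → RatFunc ℂ → Prop
  /-- the ideals in `BaseI` -/
  | baseI (A : Fam) (Z : RatFunc ℂ) (h : BaseI A Z) : Germs G false A Z
  /-- the hypersurfaces in `BaseH` -/
  | baseH (A : Fam) (Z : RatFunc ℂ) (h : BaseH G A Z) : Germs G true A Z
  /-- a hypersurface is a principal ideal -/
  | hyp (A : Fam) (Z : RatFunc ℂ) (h : Germs G true A Z) : Germs G false A Z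
  /-- a principal ideal whose zeta function has at most a simple pole at `-1` is a hypersurface of
  the class -/
  | simple (σ : Type) (g : MvPolynomial σ ℂ) (Z : RatFunc ℂ)
      (h : Germs G false ⟨σ, Fin 1, fun _ => g⟩ Z)
      (h1 : ((RatFunc.X + 1) * Z).denom.eval (-1) ≠ 0) : Germs G true ⟨σ, Fin 1, fun _ => g⟩ Z
  /-- a principal ideal `(g)` is a hypersurface of the class if the origin is in the Zariski closure
  of a set `S` of points `p` at which the germ of `g` splits: it is the product of two formal power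
  series without constant terms which form a regular sequence (`S = {0}` if this holds at the
  origin); no condition at `-1` -/
  | split (σ : Type) (g : MvPolynomial σ ℂ) (Z : RatFunc ℂ)
      (h : Germs G false ⟨σ, Fin 1, fun _ => g⟩ Z) (S : Set (σ → ℂ))
      (hS : ∀ B : MvPolynomial σ ℂ, (∀ p ∈ S, eval p B = 0) → eval 0 B = 0)
      (hs : ∀ p ∈ S, Splits p g) : Germs G true ⟨σ, Fin 1, fun _ => g⟩ Z
  /-- the powers `g ^ k`, `k ≥ 2`, of the principal ideals of the class; if `p(s) / q(s)` is the local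
  topological zeta function of `g`, then `p(k s) / q(k s)` is the one of `g ^ k` -/
  | pow (σ : Type) (g : MvPolynomial σ ℂ) (k : ℕ) (hk : 2 ≤ k) (p q : Polynomial ℂ) (hq : q ≠ 0)
      (h : Germs G false ⟨σ, Fin 1, fun _ => g⟩
        (algebraMap (Polynomial ℂ) (RatFunc ℂ) p / algebraMap (Polynomial ℂ) (RatFunc ℂ) q)) :
      Germs G true ⟨σ, Fin 1, fun _ => g ^ k⟩
        (algebraMap (Polynomial ℂ) (RatFunc ℂ) (p.comp (Polynomial.C (k : ℂ) * Polynomial.X)) /
          algebraMap (Polynomial ℂ) (RatFunc ℂ) (q.comp (Polynomial.C (k : ℂ) * Polynomial.X)))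
  /-- the sum of two ideals in disjoint sets of variables: if `1 - Z = s ∫ V(t) exp(- s t) dt` and
  `1 - W = s ∫ W'(t) exp(- s t) dt`, where no constant function occurs in the exponential
  polynomials `V`, `W'` (given by `v` and `w`), then the local topological zeta function of the sum is
  `1 - s ∫ V(t) W'(t) exp(- s t) dt` -/
  | sum (A B : Fam) (Z W : RatFunc ℂ) (v w : ℂ × ℕ →₀ ℂ) (hv : 1 - Z = RatFunc.X * lap v)
      (hw : 1 - W = RatFunc.X * lap w) (hv0 : ∀ p ∈ v.support, p.1 ≠ 0)
      (hw0 : ∀ p ∈ w.support, p.1 ≠ 0) (hA : Germs G false A Z) (hB : Germs G false B W) :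
      Germs G false (A.sum B) (1 - RatFunc.X * lap2 v w)
  /-- the product of two ideals in disjoint sets of variables -/
  | mul (A B : Fam) (Z W : RatFunc ℂ) (hA : Germs G false A Z) (hB : Germs G false B W) :
      Germs G false (A.mul B) (Z * W)
  /-- the germ of `∑ y_j f_j(x)` has the local topological zeta function `Z / (s + 1)`, if `Z` is the
  one of the ideal `(f_j)` -/
  | univ (A : Fam) (Z : RatFunc ℂ) (hA : Germs G false A Z) :
      Germs G true (univF A) (Z * (RatFunc.X + 1)⁻¹)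
  /-- conversely, if `∑ y_j f_j(x)` is in the class, with `W`, then the ideal `(f_j)` is in the class,
  with `(s + 1) W` -/
  | ofUniv (A : Fam) (W : RatFunc ℂ) (h : Germs G true (univF A) W) :
      Germs G false A ((RatFunc.X + 1) * W)
  /-- the germ of `h(x) ∏_t (∑_j y_{t, j} f_{t, j}(x)) ^ a_t` has the local topological zeta function
  `Z ∏_t 1 / (a_t s + 1)`, if `Z` is the one of the ideal `h ∏_t (f_{t, j})_j ^ a_t` -/
  | form (σ τ : Type) [Fintype τ] [DecidableEq τ] [Nonempty τ] (κ : τ → Type)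
      [∀ t, Fintype (κ t)] (a : τ → ℕ) (ha : ∀ t, 0 < a t) (h : MvPolynomial σ ℂ)
      (f : (t : τ) → κ t → MvPolynomial σ ℂ) (Z : RatFunc ℂ)
      (hA : Germs G false (genF a h f) Z) :
      Germs G true (formF a h f) (Z * ∏ t, fac (a t) 1)
  /-- the Thom-Sebastiani sum `∑ y_j f_j(x) + g(z)`, `g(0) = 0`: if
  `1 - Z = s ∫ V(t) exp(- s t) dt` and `1 - (s + 1) W = s ∫ U(t) exp(- s t) dt`, where no constant
  function occurs in the exponential polynomials `V`, `U` (given by `v` and `w`), then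
  `1 - (s + 1) Z_F = s ∫ V(t) U(t) exp(- s t) dt` -/
  | ts (A : Fam) (τ : Type) (g : MvPolynomial τ ℂ) (Z W : RatFunc ℂ) (v w : ℂ × ℕ →₀ ℂ)
      (hv : 1 - Z = RatFunc.X * lap v) (hw : 1 - (RatFunc.X + 1) * W = RatFunc.X * lap w)
      (hv0 : ∀ p ∈ v.support, p.1 ≠ 0) (hw0 : ∀ p ∈ w.support, p.1 ≠ 0)
      (h0 : constantCoeff g = 0)
      (hA : Germs G false A Z) (hg : Germs G true ⟨τ, Fin 1, fun _ => g⟩ W) :
      Germs G true (tsF A τ g) ((1 - RatFunc.X * lap2 v w) * (RatFunc.X + 1)⁻¹)
  /-- variables which do not occur may be dropped -/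
  | drop (σ κ : Type) (g : MvPolynomial σ ℂ) (Z : RatFunc ℂ)
      (h : Germs G true ⟨σ ⊕ κ, Fin 1, fun _ => rename Sum.inl g⟩ Z) :
      Germs G true ⟨σ, Fin 1, fun _ => g⟩ Z
  /-- stable contact equivalence: if `f(x) + y_1 z_1 + ⋯ + y_k z_k` becomes the polynomial `g` in
  suitable formal coordinates at the origin, up to a unit factor, then the local topological zeta
  function `Z_f` of `f` is `unst k Z`, where `Z` is the one of `g`; `k` is not a pole of it -/
  | contact (N k : ℕ) (f : MvPolynomial (Fin N) ℂ) (hf : f ≠ 0) (h0 : constantCoeff f = 0)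
      (g : MvPolynomial (Fin (N + (k + k))) ℂ) (Z : RatFunc ℂ)
      (hg : BecomesS (f : MvPowerSeries (Fin N) ℂ) k g)
      (hk : ((RatFunc.X + 1) * unst k Z).denom.eval (k : ℂ) ≠ 0)
      (h : Germs G true ⟨Fin (N + (k + k)), Fin 1, fun _ => g⟩ Z) :
      Germs G true ⟨Fin N, Fin 1, fun _ => f⟩ (unst k Z)
  /-- the same for principal ideals; zeta functions have no poles in `ℕ` -/
  | contactI (N k : ℕ) (f : MvPolynomial (Fin N) ℂ) (hf : f ≠ 0) (h0 : constantCoeff f = 0)
      (g : MvPolynomial (Fin (N + (k + k))) ℂ) (Z : RatFunc ℂ)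
      (hg : BecomesS (f : MvPowerSeries (Fin N) ℂ) k g)
      (hk : ∀ n : ℕ, (unst k Z).denom.eval (n : ℂ) ≠ 0)
      (h : Germs G false ⟨Fin (N + (k + k)), Fin 1, fun _ => g⟩ Z) :
      Germs G false ⟨Fin N, Fin 1, fun _ => f⟩ (unst k Z)
  /-- the variables and the generators may be indexed differently -/
  | equiv (c : Bool) (A B : Fam) (i : A.σ ≃ B.σ) (k : A.ι ≃ B.ι)
      (h : ∀ j, B.f (k j) = rename i (A.f j)) (Z : RatFunc ℂ) (hA : Germs G c A Z) :
      Germs G c B Z

end Pool.Agent.K6.H39.RC
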