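import Pool.Agent.K6.H39.RC.Red
import Pool.Agent.K6.H39.RC.Pow
import Pool.Agent.K6.H39.RC.Univ
import Pool.Agent.N103.TLCl
import Pool.Agent.Y229.PS.Main

set_option autoImplicit false
set_option linter.unusedSectionVars false
set_option linter.unusedVariables false

/-! # Reduced forced roots and local Bernstein-Sato polynomials -/

namespace Pool.Agent.K6.H39.RC

open MvPolynomial Pool.Agent.W574.SM Pool.Agent.W574.RO Pool.Agent.Y229 Pool.Agent.W574.LM
open Pool.Agent.W574.HS
open Pool.Agent.H628R4.TP (IsLocalBFunction)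
open Pool.Agent.Y230.TL Pool.Agent.R852.TL
open Pool.Agent.N103 (tL')

/-- every local functional equation has the root `-1` -/
theorem factor_of_loc {σ : Type} [Finite σ] (g : MvPolynomial σ ℂ) (hg : g ≠ 0)
    (h0 : constantCoeff g = 0) (H : MvPolynomial σ ℂ) (b : Polynomial ℂ)
    (hb : IsLocEq H (fun _ : Fin 1 => g) b) (hH : eval 0 H ≠ 0) :
    ∃ c : Polynomial ℂ, b = (Polynomial.X + 1) * c := by
  obtain ⟨c, hc⟩ := Polynomial.dvd_iff_isRoot.2
    (show b.IsRoot (-1) from (sf_minus_one g hg h0).locEq H b hb hH)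
  refine ⟨c, ?_⟩
  rw [hc, Polynomial.C_neg, Polynomial.C_1, sub_neg_eq_add]

theorem localB_of_locEq {σ : Type} (g H : MvPolynomial σ ℂ) (b : Polynomial ℂ)
    (hb : IsLocEq H (fun _ : Fin 1 => g) b) (hH : eval 0 H ≠ 0) : IsLocalBFunction g b :=
  localB_of_single g H b (by rw [MvPolynomial.eval_zero] at hH; exact hH) hb

/-- Reduced forced roots from the local Bernstein-Sato polynomials. -/
theorem rf_of_formal {σ : Type} [Finite σ] (g : MvPolynomial σ ℂ) (hg : g ≠ 0)
    (h0 : constantCoeff g = 0) (β : ℂ)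
    (h : ∀ c : Polynomial ℂ, IsLocalBFunction g ((Polynomial.X + 1) * c) → c.eval β = 0) :
    RF g 0 β := by
  classical
  by_cases hβ : β = -1
  · subst hβ
    refine rf_of_double g hg fun H b hb hH => ?_
    obtain ⟨c, rfl⟩ := factor_of_loc g hg h0 H b hb hH
    have h1 := h c (localB_of_locEq g H _ hb hH)
    obtain ⟨c', hc'⟩ := Polynomial.dvd_iff_isRoot.2 (show c.IsRoot (-1) from h1)
    refine ⟨c', ?_⟩
    rw [hc', Polynomial.C_neg, Polynomial.C_1, sub_neg_eq_add]
    ring
  · refine tL'.rf_of_sf g 0 β hβ (sf_of_local _ 0 β (fun H b hb hH => ?_) (exists_fe _ ⟨0, hg⟩))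
    obtain ⟨c, rfl⟩ := factor_of_loc g hg h0 H b hb hH
    rw [Polynomial.eval_mul, h c (localB_of_locEq g H _ hb hH), mul_zero]

/-- the local Bernstein-Sato polynomials have the reduced forced roots -/
theorem formal_of_rf {σ : Type} [Finite σ] (g : MvPolynomial σ ℂ) (hg : g ≠ 0) (β : ℂ) (h : RF g 0 β)
    (c : Polynomial ℂ) (hc : IsLocalBFunction g ((Polynomial.X + 1) * c)) : c.eval β = 0 := by
  classical
  obtain ⟨H, P, hH, hP⟩ := algebraic_of_local g hg _ hc
  have h1 : RE g (Polynomial.C H * c.map C) (∑ m ∈ P.support, Finsupp.single m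
      ⟨(P m).1, (P m).2⟩) := by
    intro k
    rw [← Finsupp.sum_finsetSum_index]
    · have h2 := hP k
      rw [Polynomial.eval_mul, Polynomial.eval_C, Polynomial.eval_natCast_map, smul_eq_C_mul]
      have h3 : (C ((k : ℂ) + 1) : MvPolynomial σ ℂ) * (H * C (c.eval (k : ℂ)) * g ^ k) =
          H * (C (((Polynomial.X + 1) * c).eval (k : ℂ)) * g ^ k) := by
        rw [Polynomial.eval_mul, Polynomial.eval_add, Polynomial.eval_X, Polynomial.eval_one,
          map_mul]
        ring
      rw [h3, h2, Finsupp.sum]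
      refine Finset.sum_congr rfl fun m _ => ?_
      rw [Finsupp.sum_single_index (by rw [ZeroMemClass.coe_zero, LinearMap.zero_apply, smul_zero])]
    · intro a
      rw [ZeroMemClass.coe_zero, LinearMap.zero_apply, smul_zero]
    · intro a A B
      rw [← smul_add]
      rfl
  have h2 := h _ _ h1
  rw [Polynomial.eval_mul, Polynomial.eval_C, eval_mapC, map_mul, eval_C,
    MvPolynomial.eval_zero] at h2
  exact (mul_eq_zero.1 h2).resolve_left hH

/-- **Forced roots of an ideal from the reduced forced roots of `∑ y_j f_j`.** -/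
theorem sf_of_univ {σ ι : Type} [Fintype ι] [DecidableEq ι] [DecidableEq σ] [Finite σ]
    (f : ι → MvPolynomial σ ℂ) (hf : ∃ j, f j ≠ 0) (s : ℂ)
    (h : RF (Pool.Agent.W574.HS.univ f : MvPolynomial (ι ⊕ σ) ℂ) 0 s) : SF f 0 s := by
  classical
  refine sf_of_local f 0 s (fun H b hb hH => ?_) (exists_fe f hf)
  obtain ⟨Q, mQ, hQ⟩ := locU f H b hb
  have h1 : RE (Pool.Agent.W574.HS.univ f : MvPolynomial (ι ⊕ σ) ℂ)
      (Polynomial.C (rename Sum.inr H) * b.map C) (Finsupp.single 0 ⟨Q, mQ⟩) := by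
    intro k
    have h2 := hQ k
    rw [Polynomial.eval_mul, Polynomial.eval_C, Polynomial.eval_natCast_map, smul_eq_C_mul]
    have h3 : (C ((k : ℂ) + 1) : MvPolynomial (ι ⊕ σ) ℂ) *
        (rename Sum.inr H * C (b.eval (k : ℂ)) * Pool.Agent.W574.HS.univ f ^ k) =
        rename Sum.inr H * (C (((Polynomial.X + 1) * b).eval (k : ℂ)) *
          Pool.Agent.W574.HS.univ f ^ k) := by
      rw [Polynomial.eval_mul, Polynomial.eval_add, Polynomial.eval_X, Polynomial.eval_one,
        map_mul]
      ring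
    rw [h3, h2, Finsupp.sum_single_index
      (by rw [ZeroMemClass.coe_zero, LinearMap.zero_apply, smul_zero]), pow_zero, one_smul]
  have h2 := h _ _ h1
  rw [Polynomial.eval_mul, Polynomial.eval_C, eval_mapC, map_mul, eval_C,
    MvPolynomial.eval_zero, constantCoeff_rename] at h2
  rw [MvPolynomial.eval_zero] at hH
  exact (mul_eq_zero.1 h2).resolve_left hH

end Pool.Agent.K6.H39.RC
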