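import Pool.Agent.K6.H39.RC.Defs

set_option autoImplicit false

/-! # Products of germs in disjoint sets of variables split -/

namespace Pool.Agent.K6.H39.RC

open MvPolynomial Pool.Agent.W574.RO

variable {σ τ : Type}

/-- the coefficient of `x ^ γ` of a power series in `x`, `z`, as a power series in `z` -/
noncomputable def sl (γ : σ →₀ ℕ) : MvPowerSeries (σ ⊕ τ) ℂ →ₗ[ℂ] MvPowerSeries τ ℂ where
  toFun a := fun δ => MvPowerSeries.coeff (Finsupp.sumElim γ δ) a
  map_add' a b := by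
    ext δ
    rfl
  map_smul' c a := by
    ext δ
    rfl

theorem coeff_sl (γ : σ →₀ ℕ) (δ : τ →₀ ℕ) (a : MvPowerSeries (σ ⊕ τ) ℂ) :
    MvPowerSeries.coeff δ (sl γ a) = MvPowerSeries.coeff (Finsupp.sumElim γ δ) a := rfl

theorem sl_monomial_inl (β γ : σ →₀ ℕ) (c : ℂ) (a : MvPowerSeries (σ ⊕ τ) ℂ) :
    sl γ (MvPowerSeries.monomial (Finsupp.sumElim β 0) c * a) =
      if β ≤ γ then c • sl (γ - β) a else 0 := by
  classical
  ext δ
  rw [coeff_sl, MvPowerSeries.coeff_monomial_mul]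
  have h1 : (Finsupp.sumElim β (0 : τ →₀ ℕ) ≤ Finsupp.sumElim γ δ) ↔ β ≤ γ := by
    constructor
    · intro h i
      exact h (Sum.inl i)
    · rintro h (i | i)
      · exact h i
      · exact Nat.zero_le _
  by_cases h : β ≤ γ
  · have h2 : Finsupp.sumElim γ δ - Finsupp.sumElim β (0 : τ →₀ ℕ) = Finsupp.sumElim (γ - β) δ := by
      ext (i | i)
      · rfl
      · exact Nat.sub_zero _
    rw [if_pos (h1.2 h), if_pos h, map_smul, coeff_sl, smul_eq_mul, h2]
  · rw [if_neg (fun h' => h (h1.1 h')), if_neg h, map_zero]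

theorem sl_monomial_inr (β : τ →₀ ℕ) (γ : σ →₀ ℕ) (c : ℂ) (a : MvPowerSeries (σ ⊕ τ) ℂ) :
    sl γ (MvPowerSeries.monomial (Finsupp.sumElim 0 β) c * a) =
      MvPowerSeries.monomial β c * sl γ a := by
  classical
  ext δ
  rw [coeff_sl, MvPowerSeries.coeff_monomial_mul, MvPowerSeries.coeff_monomial_mul]
  have h1 : (Finsupp.sumElim (0 : σ →₀ ℕ) β ≤ Finsupp.sumElim γ δ) ↔ β ≤ δ := by
    constructor
    · intro h i
      exact h (Sum.inr i)
    · rintro h (i | i)
      · exact Nat.zero_le _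
      · exact h i
  by_cases h : β ≤ δ
  · have h2 : Finsupp.sumElim γ δ - Finsupp.sumElim (0 : σ →₀ ℕ) β = Finsupp.sumElim γ (δ - β) := by
      ext (i | i)
      · exact Nat.sub_zero _
      · rfl
    rw [if_pos (h1.2 h), if_pos h, coeff_sl, h2]
  · rw [if_neg (fun h' => h (h1.1 h')), if_neg h]

theorem coe_inl (u : MvPolynomial σ ℂ) : ((rename Sum.inl u : MvPolynomial (σ ⊕ τ) ℂ) :
    MvPowerSeries (σ ⊕ τ) ℂ) =
      ∑ β ∈ u.support, MvPowerSeries.monomial (Finsupp.sumElim β 0) (u.coeff β) := by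
  conv_lhs => rw [u.as_sum, map_sum]
  rw [← MvPolynomial.coeToMvPowerSeries.ringHom_apply, map_sum]
  refine Finset.sum_congr rfl fun β _ => ?_
  rw [rename_monomial, MvPolynomial.coeToMvPowerSeries.ringHom_apply, MvPolynomial.coe_monomial,
    Finsupp.sumElim_eq_add, Finsupp.mapDomain_zero, add_zero]

theorem coe_inr (v : MvPolynomial τ ℂ) : ((rename Sum.inr v : MvPolynomial (σ ⊕ τ) ℂ) :
    MvPowerSeries (σ ⊕ τ) ℂ) =
      ∑ β ∈ v.support, MvPowerSeries.monomial (Finsupp.sumElim 0 β) (v.coeff β) := by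
  conv_lhs => rw [v.as_sum, map_sum]
  rw [← MvPolynomial.coeToMvPowerSeries.ringHom_apply, map_sum]
  refine Finset.sum_congr rfl fun β _ => ?_
  rw [rename_monomial, MvPolynomial.coeToMvPowerSeries.ringHom_apply, MvPolynomial.coe_monomial,
    Finsupp.sumElim_eq_add, Finsupp.mapDomain_zero, zero_add]

theorem coe_sum (v : MvPolynomial τ ℂ) : (v : MvPowerSeries τ ℂ) =
      ∑ β ∈ v.support, MvPowerSeries.monomial β (v.coeff β) := by
  conv_lhs => rw [v.as_sum]
  rw [← MvPolynomial.coeToMvPowerSeries.ringHom_apply, map_sum]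
  refine Finset.sum_congr rfl fun β _ => ?_
  rw [MvPolynomial.coeToMvPowerSeries.ringHom_apply, MvPolynomial.coe_monomial]

theorem sl_inl (u : MvPolynomial σ ℂ) (γ : σ →₀ ℕ) (a : MvPowerSeries (σ ⊕ τ) ℂ) :
    sl γ (((rename Sum.inl u : MvPolynomial (σ ⊕ τ) ℂ) : MvPowerSeries (σ ⊕ τ) ℂ) * a) =
      ∑ β ∈ u.support, if β ≤ γ then u.coeff β • sl (γ - β) a else 0 := by
  rw [coe_inl, Finset.sum_mul, map_sum]
  exact Finset.sum_congr rfl fun β _ => sl_monomial_inl β γ _ a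

theorem sl_inr (v : MvPolynomial τ ℂ) (γ : σ →₀ ℕ) (a : MvPowerSeries (σ ⊕ τ) ℂ) :
    sl γ (((rename Sum.inr v : MvPolynomial (σ ⊕ τ) ℂ) : MvPowerSeries (σ ⊕ τ) ℂ) * a) =
      (v : MvPowerSeries τ ℂ) * sl γ a := by
  rw [coe_inr, Finset.sum_mul, map_sum, coe_sum, Finset.sum_mul]
  exact Finset.sum_congr rfl fun β _ => sl_monomial_inr β γ _ a

theorem sl_ext (a b : MvPowerSeries (σ ⊕ τ) ℂ) (h : ∀ γ, sl γ a = sl γ b) : a = b := by
  ext m
  have h1 := congrArg (MvPowerSeries.coeff (Finsupp.comapDomain Sum.inr m Sum.inr_injective.injOn))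
    (h (Finsupp.comapDomain Sum.inl m Sum.inl_injective.injOn))
  rwa [coeff_sl, coeff_sl, Finsupp.comapDomain_sumElim_comapDomain] at h1

theorem dvd_smul' {a b : MvPowerSeries τ ℂ} (c : ℂ) (h : a ∣ b) : a ∣ c • b := by
  obtain ⟨x, rfl⟩ := h
  exact ⟨c • x, (mul_smul_comm _ _ _).symm⟩

/-- `v(z)` is not a zero divisor modulo `u(x)` -/
theorem dvd_of_disjoint [Finite σ] (u : MvPolynomial σ ℂ) (hu : u ≠ 0) (v : MvPolynomial τ ℂ)
    (a : MvPowerSeries (σ ⊕ τ) ℂ)
    (h : ((rename Sum.inr v : MvPolynomial (σ ⊕ τ) ℂ) : MvPowerSeries (σ ⊕ τ) ℂ) ∣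
      ((rename Sum.inl u : MvPolynomial (σ ⊕ τ) ℂ) : MvPowerSeries (σ ⊕ τ) ℂ) * a) :
    ((rename Sum.inr v : MvPolynomial (σ ⊕ τ) ℂ) : MvPowerSeries (σ ⊕ τ) ℂ) ∣ a := by
  classical
  let _ : LinearOrder σ := linearOrderOfSTO WellOrderingRel
  have _ : WellFoundedGT σ := Finite.to_wellFoundedGT
  set M : MonomialOrder σ := MonomialOrder.lex with hM
  obtain ⟨μ, hμ, hmin⟩ := Finset.exists_min_image u.support (fun β => M.toSyn β)
    (MvPolynomial.support_nonempty.2 hu)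
  obtain ⟨b, hb⟩ := h
  have key : ∀ x : M.syn, ∀ α : σ →₀ ℕ, M.toSyn α = x → (v : MvPowerSeries τ ℂ) ∣ sl α a := by
    intro x
    induction x using WellFoundedLT.induction with
    | ind x ih =>
      intro α hα
      have h1 := congrArg (sl (μ + α)) hb
      rw [sl_inl, sl_inr, ← Finset.add_sum_erase _ _ hμ, if_pos le_self_add,
        add_tsub_cancel_left] at h1
      have h2 : (v : MvPowerSeries τ ℂ) ∣ ∑ β ∈ u.support.erase μ,
          if β ≤ μ + α then u.coeff β • sl (μ + α - β) a else 0 := by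
        refine Finset.dvd_sum fun β hβ => ?_
        obtain ⟨hβ1, hβ2⟩ := Finset.mem_erase.1 hβ
        split_ifs with h3
        · have h4 : M.toSyn β + M.toSyn (μ + α - β) = M.toSyn μ + M.toSyn α := by
            rw [← map_add, ← map_add, add_tsub_cancel_of_le h3]
          have h5 : M.toSyn μ < M.toSyn β :=
            lt_of_le_of_ne (hmin β hβ2) fun h => hβ1 (M.toSyn.injective h).symm
          have h6 : M.toSyn (μ + α - β) < x := by
            rw [← hα]
            by_contra hcon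
            exact absurd h4 (ne_of_gt (add_lt_add_of_lt_of_le h5 (not_lt.1 hcon)))
          exact dvd_smul' _ (ih _ h6 _ rfl)
        · exact dvd_zero _
      have h3 : (v : MvPowerSeries τ ℂ) ∣ u.coeff μ • sl α a := by
        have h4 : u.coeff μ • sl α a = (v : MvPowerSeries τ ℂ) * sl (μ + α) b -
            ∑ β ∈ u.support.erase μ,
              if β ≤ μ + α then u.coeff β • sl (μ + α - β) a else 0 := by
          rw [← h1]
          ring
        rw [h4]
        exact dvd_sub (dvd_mul_right _ _) h2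
      have hc : u.coeff μ ≠ 0 := MvPolynomial.mem_support_iff.1 hμ
      have h5 := dvd_smul' (u.coeff μ)⁻¹ h3
      rwa [smul_smul, inv_mul_cancel₀ hc, one_smul] at h5
  choose w hw using fun α : σ →₀ ℕ => key _ α rfl
  let B : MvPowerSeries (σ ⊕ τ) ℂ := fun m =>
    MvPowerSeries.coeff (Finsupp.comapDomain Sum.inr m Sum.inr_injective.injOn)
    (w (Finsupp.comapDomain Sum.inl m Sum.inl_injective.injOn))
  refine ⟨B, sl_ext _ _ fun γ => ?_⟩
  rw [sl_inr, hw γ]
  congr 1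
  ext δ
  rw [coeff_sl]
  change _ = MvPowerSeries.coeff (Finsupp.comapDomain Sum.inr (Finsupp.sumElim γ δ) _)
    (w (Finsupp.comapDomain Sum.inl (Finsupp.sumElim γ δ) _))
  rw [Finsupp.comapDomain_inl_sumElim, Finsupp.comapDomain_inr_sumElim]

/-- products in disjoint sets of variables split -/
theorem splits_mul [Finite σ] (g : MvPolynomial σ ℂ) (hg : g ≠ 0) (g' : MvPolynomial τ ℂ)
    (h0 : constantCoeff g = 0) (h0' : constantCoeff g' = 0) :
    Splits (0 : σ ⊕ τ → ℂ) (rename Sum.inl g * rename Sum.inr g' : MvPolynomial (σ ⊕ τ) ℂ) := by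
  refine ⟨((rename Sum.inl g : MvPolynomial (σ ⊕ τ) ℂ) : MvPowerSeries (σ ⊕ τ) ℂ),
    ((rename Sum.inr g' : MvPolynomial (σ ⊕ τ) ℂ) : MvPowerSeries (σ ⊕ τ) ℂ), ?_, ?_, ?_, ?_⟩
  · unfold taylor
    rw [← MvPolynomial.coe_mul]
    congr 1
    have e : (fun i : σ ⊕ τ => (X i + C ((0 : σ ⊕ τ → ℂ) i) : MvPolynomial (σ ⊕ τ) ℂ)) = X := by
      funext i
      rw [Pi.zero_apply, map_zero, add_zero]
    rw [e, aeval_X_left, AlgHom.id_apply]
  · rw [← MvPowerSeries.coeff_zero_eq_constantCoeff_apply, MvPolynomial.coeff_coe,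
      ← constantCoeff_eq, constantCoeff_rename, h0]
  · rw [← MvPowerSeries.coeff_zero_eq_constantCoeff_apply, MvPolynomial.coeff_coe,
      ← constantCoeff_eq, constantCoeff_rename, h0']
  · exact fun a => dvd_of_disjoint g hg g' a

/-- **Products `g(x) g'(z)` of members of the class of ideals are in the class of hypersurfaces.** -/
theorem Germs.prod {G : GenCond} {σ τ : Type} [Finite σ] (g : MvPolynomial σ ℂ) (hg : g ≠ 0)
    (g' : MvPolynomial τ ℂ)
    (h0 : constantCoeff g = 0) (h0' : constantCoeff g' = 0) (Z W : RatFunc ℂ)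
    (h : Germs G false ⟨σ, Fin 1, fun _ => g⟩ Z) (h' : Germs G false ⟨τ, Fin 1, fun _ => g'⟩ W) :
    Germs G true ⟨σ ⊕ τ, Fin 1, fun _ => rename Sum.inl g * rename Sum.inr g'⟩ (Z * W) := by
  refine Germs.split _ _ _ (Germs.equiv false
    (Fam.mul ⟨σ, Fin 1, fun _ => g⟩ ⟨τ, Fin 1, fun _ => g'⟩)
    ⟨σ ⊕ τ, Fin 1, fun _ => rename Sum.inl g * rename Sum.inr g'⟩ (Equiv.refl (σ ⊕ τ))
    (⟨fun _ => 0, fun _ => (0, 0), fun p => by
      apply Prod.ext <;> exact Subsingleton.elim (α := Fin 1) _ _,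
      fun _ => Subsingleton.elim (α := Fin 1) _ _⟩ : Fin 1 × Fin 1 ≃ Fin 1) (fun j => ?_) _
    (Germs.mul _ _ Z W h h')) {0} (fun B hB => hB 0 rfl) ?_
  · change rename Sum.inl g * rename Sum.inr g' =
      rename (Equiv.refl (σ ⊕ τ)) (rename Sum.inl g * rename Sum.inr g')
    rw [Equiv.coe_refl, rename_id_apply]
  · rintro p hp
    rw [Set.mem_singleton_iff.1 hp]
    exact splits_mul g hg g' h0 h0'

end Pool.Agent.K6.H39.RC
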