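import Pool.Agent.K6.H39.RC.Loc
import Pool.Agent.K6.H39.RC.Defs
import Pool.Agent.K6.H39.RC.Prod
import Pool.Agent.Y228.AT.Top
import Pool.Agent.TH187.SA.Roots
import Pool.Agent.TH187.SA.Classes
import Pool.Agent.W425.SH.Final

set_option autoImplicit false
set_option linter.unusedSectionVars false
set_option linter.unusedVariables false

/-! # Germs at the origin: the induction -/

namespace Pool.Agent.K6.H39.RC

open MvPolynomial Pool.Agent.W574.SM Pool.Agent.W574.CN Pool.Agent.W574.RO Pool.Agent.Y229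
open Pool.Agent.W574.MO Pool.Agent.W425.SM Pool.Agent.W425.SV Pool.Agent.W422.GC
open Pool.Agent.W425.ND Pool.Agent.W574.HS Pool.Agent.TH192.DT Pool.Agent.W574.LM
open Pool.Agent.Y230.TL Pool.Agent.R852.TL Pool.Agent.TH187.SA
open Pool.Agent.Y228.AT (topZeta_pole)
open Pool.Agent.R852.TP (bot_div pole_scale)
open Pool.Agent.N103 (tJ' tU' tL' germLin_sf)
open Pool.Agent.H628R4.TP (IsLocalBFunction)
open Pool.Agent.Y229.PS (Becomes becomes_local IsFormalBFunction formal_of_local)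
open Pool.Agent.Y229.RE (unstab)

/-! ## the building blocks -/

/-- the charts of the starting files -/
def RChart.toChart {σ τ : Type} [Fintype σ] [DecidableEq σ] [Fintype τ] [DecidableEq τ]
    {κ : τ → Type} [∀ t, Fintype (κ t)] [∀ t, DecidableEq (κ t)]
    {g : (t : τ) → κ t → MvPolynomial σ ℂ} (E : RChart g) : Pool.Agent.Y231.RF.Chart g where
  z := E.z
  ξ := E.ξ
  k := E.k
  m := E.m
  j0 := E.j0
  jacobian := E.jacobian
  divides := E.divides
  attained := E.attained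

theorem from_of {σ τ : Type} [Fintype σ] [DecidableEq σ] [Fintype τ] [DecidableEq τ]
    {κ : τ → Type} [∀ t, Fintype (κ t)] [∀ t, DecidableEq (κ t)]
    (g : (t : τ) → κ t → MvPolynomial σ ℂ) (a : τ → ℕ) (H : MvPolynomial σ ℂ) (ν N : ℕ)
    (h : OfRees g a H ν N) : Pool.Agent.Y228.RR.FromRees g a H ν N := by
  obtain ⟨E, h1, h2, l, p, h3, h4, h5⟩ := h
  exact ⟨E.toChart, h1, h2, l, p, h3, h4, h5⟩

theorem baseI_poles (A : Fam) (Z : RatFunc ℂ) (h : BaseI A Z) :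
    Finite A.σ ∧ (∃ j, A.f j ≠ 0) ∧ ∀ s : ℂ, Z.denom.eval s = 0 → FoL A s := by
  classical
  have basic : ∀ (A : Fam) (Z : RatFunc ℂ), Basic (fun _ f Z => LocalZeta f 0 1 0 1 Z) A Z →
      (∃ j, A.f j ≠ 0) ∧ ∀ s : ℂ, Z.denom.eval s = 0 → FoL A s := fun A Z h =>
    strongLocal_poles A Z (StrongLocal.basic A Z h)
  cases h with
  | unit _ hfin j hj => exact ⟨hfin, strongLocal_poles A 1 (StrongLocal.unit A j hj)⟩
  | power m hm => exact ⟨inferInstanceAs (Finite (Fin 1)), basic _ _ (Basic.power m hm)⟩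
  | plane r f hf _ hZ => exact ⟨inferInstanceAs (Finite (Fin 2)), basic _ _ (Basic.plane r f hf Z hZ)⟩
  | cone r f d hd hf e he _ hZ =>
    exact ⟨inferInstanceAs (Finite (Fin 3)), basic _ _ (Basic.cone r f d hd hf e he Z hZ)⟩
  | free n r f d hd hf h0 e he =>
    exact ⟨inferInstanceAs (Finite (Fin (n + 1))), basic _ _ (Basic.free n r f d hd hf h0 e he)⟩
  | lin κ h f a ha hF _ hZ =>
    exact ⟨inferInstanceAs (Finite (Fin 2 ⊕ κ)), ⟨(0 : Fin 1), hF⟩, germLin_sf h f a ha hF Z hZ⟩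
  | rees σ T J κ g hg a k m χ h =>
    have hne : ∃ j, (fun J : (q : Σ t, Fin (a t)) → κ q.1 => ∏ q, g q.1 (J q)) j ≠ 0 :=
      exists_prod_ne (fun q : Σ t, Fin (a t) => g q.1) fun q => hg q.1
    refine ⟨Finite.of_fintype σ, hne, fun s hs => ?_⟩
    obtain ⟨S, hS, i, hi, h1, h2⟩ := topZeta_pole _ _ χ s hs
    refine sf_of_local _ 0 s (fun H b hb hH => ?_) (exists_fe _ hne)
    have h3 := Pool.Agent.Y228.RR.root_of_from a g b H hb (k i + 1) (∑ t, a t * m i t) h1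
      (from_of _ _ _ _ _ (h i h1 ⟨S, hS, hi⟩ H (by rw [MvPolynomial.eval_zero] at hH; exact hH)))
    have hm : ((∑ t, a t * m i t : ℕ) : ℂ) ≠ 0 := by exact_mod_cast h1.ne'
    have e1 : -((k i + 1 : ℕ) : ℂ) / (∑ t, a t * m i t : ℕ) = s := by
      rw [div_eq_iff hm]
      linear_combination -h2
    rwa [e1] at h3
  | arr σ S I κ c hc e G hG χ =>
    have hne : ∃ j, arrGen c e j ≠ 0 := arrGen_ne c hc e
    refine ⟨Finite.of_fintype σ, hne, fun s hs => ?_⟩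
    obtain ⟨S', hS', i, hi, h1, h2⟩ := topZeta_pole _ _ χ s hs
    change SF (arrGen c e) 0 s
    refine sf_of_local _ 0 s (fun H b hb hH => ?_) (exists_fe _ hne)
    have h3 := arr_roots_one c e b H (by rw [MvPolynomial.eval_zero] at hH; exact hH) hb (G i)
      (hG i) 0 h1
    have hcod := codim_pos (hG i)
    rw [Nat.sub_add_cancel hcod] at h2
    have hm : ((mult (fun s => zeros (c s)) e (G i) : ℕ) : ℂ) ≠ 0 := by exact_mod_cast h1.ne'
    have h2' : ((Fintype.card σ - Module.finrank ℂ (G i) : ℕ) : ℂ) +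
        ((mult (fun s => zeros (c s)) e (G i) : ℕ) : ℂ) * s = 0 := h2
    have e1 : -(((Fintype.card σ - Module.finrank ℂ (G i) : ℕ) : ℂ) + ((0 : ℕ) : ℂ)) /
        (mult (fun s => zeros (c s)) e (G i) : ℕ) = s := by
      rw [div_eq_iff hm]
      push_cast
      linear_combination -h2'
    rwa [e1] at h3

/-- hypersurfaces for which `b(s) Z(s)` is a polynomial -/
theorem cl_of_poly {σ : Type} (g : MvPolynomial σ ℂ) (Z : RatFunc ℂ) (hfin : Finite σ)
    (hg : g ≠ 0)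
    (h : ∀ b : Polynomial ℂ, IsLocalBFunction g b → ∃ P : Polynomial ℂ,
      algebraMap (Polynomial ℂ) (RatFunc ℂ) b * Z = algebraMap (Polynomial ℂ) (RatFunc ℂ) P) :
    Cl ⊥ true ⟨σ, Fin 1, fun _ => g⟩ Z := by
  classical
  have hpole : ∀ s : ℂ, Z.denom.eval s = 0 → SF (fun _ : Fin 1 => g) 0 s := fun s hs => by
    refine sf_of_local _ 0 s (fun H b hb hH => ?_) (exists_fe _ ⟨0, hg⟩)
    obtain ⟨P, hP⟩ := h b (localB_of_locEq g H b hb hH)
    exact pole_dvd b P _ hP s hs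
  refine ⟨hfin, ⟨(0 : Fin 1), hg⟩, fun s hs => ⟨0, AddSubmonoid.zero_mem _, by
    rw [sub_zero]; exact hpole s hs⟩, fun _ s hs => ⟨0, AddSubmonoid.zero_mem _, fun j => ?_⟩⟩
  rw [sub_zero]
  have hs' := Pool.Agent.Y230.TH.pole_of_ref Z s hs
  have h0 := zero_of_sf g s (hpole s hs')
  refine rf_of_formal g hg h0 s fun c hc => ?_
  obtain ⟨P, hP⟩ := h _ hc
  refine pole_dvd c P _ ?_ s hs
  rw [← hP, map_mul, map_add, map_one, RatFunc.algebraMap_X]
  ring

/-- **The polynomials which describe the generic coefficients.** -/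
theorem exists_genCond : ∃ G : GenCond, (∀ r N F v h, 1 ≤ r → Function.Injective v →
    (∀ j, v j ≠ 0) → (∀ w ∈ h.support, InNP v w) → G r N F v h ≠ 0) ∧
    ∀ A Z, BaseH G A Z → Cl ⊥ true A Z := by
  classical
  have key : ∀ (r N : ℕ) (F : Subfield ℂ) (v : Fin r → Fin N → ℕ) (h : MvPolynomial (Fin N) F),
      ∃ g : MvPolynomial (Fin r) F, (1 ≤ r → Function.Injective v → (∀ j, v j ≠ 0) →
        (∀ w ∈ h.support, NP v w) → g ≠ 0 ∧ ∀ a : Fin r → ℂ, aeval a g ≠ 0 →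
          sparse v a + MvPolynomial.map (algebraMap F ℂ) h ≠ 0 ∧
          ∀ b : Polynomial ℂ, IsLocalBFunction (sparse v a + MvPolynomial.map (algebraMap F ℂ) h) b →
          ∀ R : SmoothFan N, Principal v R →
            ∃ P : Polynomial ℂ, algebraMap (Polynomial ℂ) (RatFunc ℂ) b * topZetaGLocal v R =
              algebraMap (Polynomial ℂ) (RatFunc ℂ) P) := by
    intro r N F v h
    by_cases hall : 1 ≤ r ∧ Function.Injective v ∧ (∀ j, v j ≠ 0) ∧ (∀ w ∈ h.support, NP v w)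
    · obtain ⟨hr, hv, hv0, hh⟩ := hall
      obtain ⟨g, hg, h1⟩ := Pool.Agent.W425.GN.gen_topL hr v hv hv0 h hh
      obtain ⟨g', hg', h1'⟩ := Pool.Agent.W425.GN.gen_ne (show 0 < r by omega) v hv h
      refine ⟨g * g', fun _ _ _ _ => ⟨mul_ne_zero hg hg', fun a ha => ?_⟩⟩
      rw [map_mul] at ha
      exact ⟨h1' a (right_ne_zero_of_mul ha), (h1 a (left_ne_zero_of_mul ha)).2⟩
    · refine ⟨0, fun h1 h2 h3 h4 => absurd ⟨h1, h2, h3, h4⟩ hall⟩
  choose G hG using key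
  refine ⟨G, fun r N F v h hr hv hv0 hh => (hG r N F v h hr hv hv0 hh).1, fun A Z hA => ?_⟩
  cases hA with
  | generic r N hr F v hv hv0 h hh a ha R hR =>
    obtain ⟨h1, h2⟩ := (hG r N F v h hr hv hv0 hh).2 a ha
    exact cl_of_poly _ _ (inferInstanceAs (Finite (Fin N))) h1 fun b hb => h2 b hb R hR
  | sparse r N hr v a h hv hv0 ha h1 h2 R hR =>
    refine cl_of_poly _ _ (inferInstanceAs (Finite (Fin N))) ?_ fun b hb =>
      Pool.Agent.W425.SH.final' hr v a h hv hv0 ha h1 h2 R hR b hb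
    rcases h1 with rfl | h1
    · rw [add_zero]
      exact Pool.Agent.W425.SL.sparse_ne_zero hr hv a ha
    · exact Pool.Agent.W425.SH.sum_ne_zero hr hv a ha h h1

/-! ## the steps -/

theorem cl_simple {σ : Type} (g : MvPolynomial σ ℂ) (Z : RatFunc ℂ)
    (ih : Cl ⊥ false ⟨σ, Fin 1, fun _ => g⟩ Z)
    (h1 : ((RatFunc.X + 1) * Z).denom.eval (-1) ≠ 0) : Cl ⊥ true ⟨σ, Fin 1, fun _ => g⟩ Z := by
  obtain ⟨j, hj⟩ := ih.ne
  refine cl_of_sf tL' ⊥ g Z ih.fin hj ih.pole fun t ht => ?_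
  rw [AddSubmonoid.mem_bot] at ht
  rw [ht, zero_sub]
  exact h1

theorem cl_split {σ : Type} (g : MvPolynomial σ ℂ) (Z : RatFunc ℂ)
    (ih : Cl ⊥ false ⟨σ, Fin 1, fun _ => g⟩ Z) (S : Set (σ → ℂ))
    (hS : ∀ B : MvPolynomial σ ℂ, (∀ p ∈ S, eval p B = 0) → eval 0 B = 0)
    (hsp : ∀ p ∈ S, Splits p g) : Cl ⊥ true ⟨σ, Fin 1, fun _ => g⟩ Z := by
  obtain ⟨j, hj⟩ := ih.ne
  refine ⟨ih.fin, ih.ne, ih.pole, fun _ s hs => ?_⟩
  obtain ⟨t, ht, h2⟩ := ih.pole s (Pool.Agent.Y230.TH.pole_of_ref Z s hs)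
  refine ⟨t, ht, fun j' => ?_⟩
  rw [AddSubmonoid.mem_bot] at ht
  subst ht
  rw [sub_zero] at h2 ⊢
  by_cases h3 : s = -1
  · rw [h3]
    exact rf_near g hj S hS hsp
  · exact tL'.rf_of_sf g 0 s h3 h2

theorem cl_pow {σ : Type} (g : MvPolynomial σ ℂ) (k : ℕ) (hk : 2 ≤ k) (p q : Polynomial ℂ)
    (hq : q ≠ 0) (ih : Cl ⊥ false ⟨σ, Fin 1, fun _ => g⟩
      (algebraMap (Polynomial ℂ) (RatFunc ℂ) p / algebraMap (Polynomial ℂ) (RatFunc ℂ) q)) :
    Cl ⊥ true ⟨σ, Fin 1, fun _ => g ^ k⟩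
      (algebraMap (Polynomial ℂ) (RatFunc ℂ) (p.comp (Polynomial.C (k : ℂ) * Polynomial.X)) /
        algebraMap (Polynomial ℂ) (RatFunc ℂ) (q.comp (Polynomial.C (k : ℂ) * Polynomial.X))) := by
  classical
  have hk0 : k ≠ 0 := by omega
  have hkC : (k : ℂ) ≠ 0 := by exact_mod_cast hk0
  have hfin : Finite σ := ih.fin
  have hg : g ≠ 0 := by
    obtain ⟨j, hj⟩ := ih.ne
    exact hj
  have hroot : ∀ s : ℂ, (algebraMap (Polynomial ℂ) (RatFunc ℂ)
      (p.comp (Polynomial.C (k : ℂ) * Polynomial.X)) / algebraMap (Polynomial ℂ) (RatFunc ℂ)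
        (q.comp (Polynomial.C (k : ℂ) * Polynomial.X))).denom.eval s = 0 →
      SF (fun _ : Fin 1 => g) 0 (k * s) := by
    intro s hs
    obtain ⟨t, ht, h1⟩ := ih.pole _ (pole_scale k hk0 p q hq s hs)
    rw [AddSubmonoid.mem_bot] at ht
    rwa [ht, sub_zero] at h1
  have hSF : ∀ s : ℂ, SF (fun _ : Fin 1 => g) 0 (k * s) → SF (fun _ : Fin 1 => g ^ k) 0 s := by
    intro s h1
    refine sf_of_local _ 0 _ (fun H b hb hH => ?_) (exists_fe _ ⟨(0 : Fin 1), pow_ne_zero k hg⟩)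
    have h3 := h1.locEq H _ (loc_shift g hg k 0 (by omega) H b hb) hH
    rw [Polynomial.eval_comp, Polynomial.eval_mul, Polynomial.eval_sub, Polynomial.eval_C,
      Polynomial.eval_C, Polynomial.eval_X, Nat.cast_zero, sub_zero,
      inv_mul_cancel_left₀ hkC] at h3
    exact h3
  refine ⟨ih.fin, ⟨(0 : Fin 1), pow_ne_zero k hg⟩, fun s hs => ?_, fun _ s hs => ?_⟩
  · refine ⟨0, AddSubmonoid.zero_mem _, ?_⟩
    rw [sub_zero]
    exact hSF s (hroot s hs)
  · refine ⟨0, AddSubmonoid.zero_mem _, fun j => ?_⟩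
    rw [sub_zero]
    have h1 := hroot s (Pool.Agent.Y230.TH.pole_of_ref _ s hs)
    by_cases h3 : s = -1
    · subst h3
      rw [mul_neg_one] at h1
      exact rf_pow g hg k hk h1
    · exact tL'.rf_of_sf _ 0 s h3 (hSF s h1)

theorem cl_ofUniv (A : Fam) (W : RatFunc ℂ) (ih : Cl ⊥ true (Pool.Agent.Y230.TH.univFam A) W) :
    Cl ⊥ false A ((RatFunc.X + 1) * W) := by
  classical
  have hfin : Finite (A.ι ⊕ A.σ) := ih.fin
  have hfin' : Finite A.σ := Finite.of_injective (Sum.inr : A.σ → A.ι ⊕ A.σ) Sum.inr_injective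
  have hne : ∃ j, A.f j ≠ 0 := by
    by_contra hcon
    push Not at hcon
    obtain ⟨j, hj⟩ := ih.ne
    apply hj
    change (∑ j, X (Sum.inl j) * rename Sum.inr (A.f j) : MvPolynomial (A.ι ⊕ A.σ) ℂ) = 0
    refine Finset.sum_eq_zero fun j _ => ?_
    rw [hcon, map_zero, mul_zero]
  refine ⟨hfin', hne, fun s hs => ?_, fun h => absurd h (by simp)⟩
  obtain ⟨t, ht, h1⟩ := ih.ref rfl s hs
  exact ⟨t, ht, sf_of_univ A.f hne _ (h1 0)⟩

/-! ## stable contact equivalence -/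

theorem unstab_mul (k : ℕ) (Z : RatFunc ℂ) :
    (RatFunc.X - RatFunc.C (k : ℂ)) * ((RatFunc.X + 1) * unstab k 1 Z) =
      (RatFunc.X - RatFunc.C (k : ℂ)) - RatFunc.X +
        RatFunc.X * Pool.Agent.Y229.RE.shiftZ k ((RatFunc.X + 1) * Z) := by
  have hk := Pool.Agent.Y229.PS.ratX_ne (k : ℂ)
  have h1' : (RatFunc.X + 1 : RatFunc ℂ) ≠ 0 := by
    have := Pool.Agent.Y229.PS.ratX_ne (-1)
    rwa [map_neg, map_one, sub_neg_eq_add] at this
  have h2 : Pool.Agent.Y229.RE.shiftZ k (RatFunc.X + 1) =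
      RatFunc.X - RatFunc.C (k : ℂ) + 1 := by
    have e : (RatFunc.X + 1 : RatFunc ℂ) =
        algebraMap (Polynomial ℂ) (RatFunc ℂ) (Polynomial.X + 1) := by
      rw [map_add, map_one, RatFunc.algebraMap_X]
    rw [e, Pool.Agent.Y229.RE.shiftZ_poly]
    simp [RatFunc.algebraMap_X, RatFunc.algebraMap_C]
  rw [map_mul, h2]
  unfold unstab
  rw [if_pos rfl]
  field_simp
  ring

theorem pole_unstab (k : ℕ) (Z : RatFunc ℂ) (s : ℂ)
    (hs : ((RatFunc.X + 1) * unstab k 1 Z).denom.eval s = 0) (hk : s ≠ k) :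
    ((RatFunc.X + 1) * Z).denom.eval (s - k) = 0 := by
  by_contra hne
  set W := (RatFunc.X + 1) * Z with hW
  have hreg : Pool.Agent.Y229.CF.Reg (s - k) W := by
    refine ⟨W.denom, W.num, hne, ?_⟩
    have h1 : algebraMap (Polynomial ℂ) (RatFunc ℂ) W.denom ≠ 0 :=
      RatFunc.algebraMap_ne_zero W.denom_ne_zero
    conv_lhs => rw [← RatFunc.num_div_denom W]
    rw [RatFunc.num_div_denom W]
    nth_rewrite 2 [← RatFunc.num_div_denom W]
    field_simp
  obtain ⟨Q, P, h1, h2⟩ := Pool.Agent.Y229.RE.reg_shift hreg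
  have h3 := pole_dvd ((Polynomial.X - Polynomial.C (k : ℂ)) * Q)
    ((Polynomial.X - Polynomial.C (k : ℂ)) * Q - Polynomial.X * Q + Polynomial.X * P)
    ((RatFunc.X + 1) * unstab k 1 Z) (by
      have h4 := unstab_mul k Z
      simp only [map_mul, map_add, map_sub, RatFunc.algebraMap_X, RatFunc.algebraMap_C]
      rw [← h2]
      linear_combination (algebraMap (Polynomial ℂ) (RatFunc ℂ) Q) * h4) s hs
  rw [Polynomial.eval_mul, Polynomial.eval_sub, Polynomial.eval_X, Polynomial.eval_C] at h3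
  rcases mul_eq_zero.1 h3 with h4 | h4
  · exact hk (by linear_combination h4)
  · exact h1 h4

theorem becomes_of {N k : ℕ} {f : MvPowerSeries (Fin N) ℂ}
    {g : MvPolynomial (Fin (N + (k + k))) ℂ} (h : BecomesS f k g) : Becomes f k g := by
  obtain ⟨φ, u, h1, h2, h3⟩ := h
  exact ⟨φ, u, h1.1, h1.2, h2, h3⟩

theorem unst_eq (k : ℕ) (Z : RatFunc ℂ) : unst k Z = unstab k 1 Z := by
  unfold unst unstab
  rw [if_pos rfl]
  rfl

/-- the roots of `f` from the reduced forced roots of `g` -/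
theorem root_of_becomes {N k : ℕ} {f : MvPowerSeries (Fin N) ℂ} (hf : f ≠ 0)
    (h0 : MvPowerSeries.constantCoeff f = 0) {g : MvPolynomial (Fin (N + (k + k))) ℂ}
    (hg0 : g ≠ 0) (hg : Becomes f k g) (s : ℂ) (hR : RF g 0 (s - k)) (c : Polynomial ℂ)
    (hc : IsFormalBFunction f ((Polynomial.X + 1) * c)) : c.eval s = 0 := by
  have h1 := (becomes_local hf h0 hc hg).2 c rfl
  have h2 := formal_of_rf g hg0 _ hR _ h1
  rw [Polynomial.eval_comp, Polynomial.eval_add, Polynomial.eval_X, Polynomial.eval_C,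
    sub_add_cancel] at h2
  exact h2

theorem cl_contact (N k : ℕ) (f : MvPolynomial (Fin N) ℂ) (hf : f ≠ 0)
    (h0 : constantCoeff f = 0) (g : MvPolynomial (Fin (N + (k + k))) ℂ) (Z : RatFunc ℂ)
    (hg : Becomes (f : MvPowerSeries (Fin N) ℂ) k g)
    (hk : ((RatFunc.X + 1) * unstab k 1 Z).denom.eval (k : ℂ) ≠ 0)
    (ih : Cl ⊥ true ⟨Fin (N + (k + k)), Fin 1, fun _ => g⟩ Z) :
    Cl ⊥ true ⟨Fin N, Fin 1, fun _ => f⟩ (unstab k 1 Z) := by
  classical
  have hg0 : g ≠ 0 := by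
    obtain ⟨j, hj⟩ := ih.ne
    exact hj
  have hf' : (f : MvPowerSeries (Fin N) ℂ) ≠ 0 := by
    rw [Ne, MvPolynomial.coe_eq_zero_iff]
    exact hf
  have h0' : MvPowerSeries.constantCoeff (f : MvPowerSeries (Fin N) ℂ) = 0 := by
    rw [← MvPowerSeries.coeff_zero_eq_constantCoeff_apply, MvPolynomial.coeff_coe]
    exact h0
  have href : ∀ s : ℂ, ((RatFunc.X + 1) * unstab k 1 Z).denom.eval s = 0 → RF f 0 s := by
    intro s hs
    have hsk : s ≠ k := by
      rintro rfl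
      exact hk hs
    obtain ⟨t, ht, h1⟩ := ih.ref rfl _ (pole_unstab k Z s hs hsk)
    rw [AddSubmonoid.mem_bot] at ht
    subst ht
    have h2 := h1 0
    rw [sub_zero] at h2
    refine rf_of_formal f hf h0 s fun c hc => ?_
    exact root_of_becomes hf' h0' hg0 hg s h2 c (formal_of_local hc)
  refine ⟨inferInstanceAs (Finite (Fin N)), ⟨(0 : Fin 1), hf⟩, fun s hs => ?_, fun _ s hs => ?_⟩
  · refine ⟨0, AddSubmonoid.zero_mem _, ?_⟩
    rw [sub_zero]
    rcases Pool.Agent.Y230.TH.ref_of_pole _ s hs with h3 | h3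
    · exact tL'.sf_of_rf f 0 s (href s h3)
    · rw [h3]
      exact sf_minus_one f hf h0
  · refine ⟨0, AddSubmonoid.zero_mem _, fun j => ?_⟩
    rw [sub_zero]
    exact href s hs

/-- the roots of `f` from the roots of the principal ideal `(g)` -/
theorem root_unref (T : AddSubmonoid ℂ) (hT : ∀ t ∈ T, ∃ n : ℕ, (n : ℂ) = t) {N k : ℕ}
    {g : MvPolynomial (Fin (N + (k + k))) ℂ} {Z : RatFunc ℂ}
    (ih : Cl T false ⟨Fin (N + (k + k)), Fin 1, fun _ => g⟩ Z) (s : ℂ)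
    (hs : (unstab k 1 Z).denom.eval s = 0) (hn : ∀ n : ℕ, s ≠ n) :
    s = -1 ∨ ∃ t ∈ T, RF g 0 (s - t - k) := by
  by_cases h1 : s = -1
  · exact Or.inl h1
  right
  have h2 := (Pool.Agent.Y230.TH.ref_of_pole _ s hs).resolve_right h1
  obtain ⟨t, ht, h3⟩ := ih.pole _ (Pool.Agent.Y230.TH.pole_of_ref _ _
    (pole_unstab k Z s h2 (hn k)))
  refine ⟨t, ht, ?_⟩
  have e : s - t - k = s - k - t := by ring
  rw [e]
  refine tL'.rf_of_sf g 0 _ (fun h4 => ?_) h3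
  obtain ⟨n, rfl⟩ := hT t ht
  rcases Nat.eq_zero_or_pos (k + n) with h5 | h5
  · have h6 : k = 0 := by omega
    have h7 : n = 0 := by omega
    subst h6 h7
    apply h1
    simpa using h4
  · obtain ⟨m, hm⟩ : ∃ m, k + n = m + 1 := ⟨k + n - 1, by omega⟩
    refine hn m ?_
    have h6 : (k : ℂ) + n = m + 1 := by exact_mod_cast hm
    linear_combination h4 + h6

theorem cl_contactI (T : AddSubmonoid ℂ) (hT : ∀ t ∈ T, ∃ n : ℕ, (n : ℂ) = t) (N k : ℕ)
    (f : MvPolynomial (Fin N) ℂ) (hf : f ≠ 0)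
    (h0 : constantCoeff f = 0) (g : MvPolynomial (Fin (N + (k + k))) ℂ) (Z : RatFunc ℂ)
    (hg : Becomes (f : MvPowerSeries (Fin N) ℂ) k g)
    (hk : ∀ n : ℕ, (unstab k 1 Z).denom.eval (n : ℂ) ≠ 0)
    (ih : Cl T false ⟨Fin (N + (k + k)), Fin 1, fun _ => g⟩ Z) :
    Cl T false ⟨Fin N, Fin 1, fun _ => f⟩ (unstab k 1 Z) := by
  classical
  have hg0 : g ≠ 0 := by
    obtain ⟨j, hj⟩ := ih.ne
    exact hj
  have hf' : (f : MvPowerSeries (Fin N) ℂ) ≠ 0 := by
    rw [Ne, MvPolynomial.coe_eq_zero_iff]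
    exact hf
  have h0' : MvPowerSeries.constantCoeff (f : MvPowerSeries (Fin N) ℂ) = 0 := by
    rw [← MvPowerSeries.coeff_zero_eq_constantCoeff_apply, MvPolynomial.coeff_coe]
    exact h0
  refine ⟨inferInstanceAs (Finite (Fin N)), ⟨(0 : Fin 1), hf⟩, fun s hs => ?_,
    fun h => absurd h (by simp)⟩
  rcases root_unref T hT ih s hs (fun n h => hk n (h ▸ hs)) with h1 | ⟨t, ht, h1⟩
  · refine ⟨0, T.zero_mem, ?_⟩
    rw [sub_zero, h1]
    exact sf_minus_one f hf h0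
  · refine ⟨t, ht, tL'.sf_of_rf f 0 _ (rf_of_formal f hf h0 _ fun c hc => ?_)⟩
    exact root_of_becomes hf' h0' hg0 hg (s - t) h1 c (formal_of_local hc)

theorem bot_nat : ∀ t ∈ (⊥ : AddSubmonoid ℂ), ∃ n : ℕ, (n : ℂ) = t := by
  intro t ht
  rw [AddSubmonoid.mem_bot] at ht
  exact ⟨0, by rw [ht, Nat.cast_zero]⟩

/-! ## the induction -/

/-- one of the steps which are known -/
theorem old_step (c : Bool) (A : Fam) (Z : RatFunc ℂ)
    (h : TQ (fun A Z => Cl ⊥ false A Z) (fun A Z => Cl ⊥ true A Z) c A Z) : Cl ⊥ c A Z :=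
  tq_closure tJ' tU' tL' ⊥ bot_div _ _ (fun A Z h => ⟨h.fin, h.ne, h.pole⟩) (fun A Z h => h)
    c A Z h

theorem germs_closure {G : GenCond} (hG : ∀ A Z, BaseH G A Z → Cl ⊥ true A Z) (c : Bool)
    (A : Fam) (Z : RatFunc ℂ) (h : Germs G c A Z) : Cl ⊥ c A Z := by
  induction h with
  | baseI A Z h =>
    obtain ⟨h1, h2, h3⟩ := baseI_poles A Z h
    exact ⟨h1, h2, fun s hs => ⟨0, AddSubmonoid.zero_mem _, by rw [sub_zero]; exact h3 s hs⟩,
      fun h => absurd h (by simp)⟩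
  | baseH A Z h => exact hG A Z h
  | hyp A Z h ih => exact ⟨ih.fin, ih.ne, ih.pole, fun h => absurd h (by simp)⟩
  | simple σ g Z h h1 ih => exact cl_simple g Z ih h1
  | split σ g Z h S hS hs ih => exact cl_split g Z ih S hS hs
  | pow σ g k hk p q hq h ih => exact cl_pow g k hk p q hq ih
  | sum A B Z W v w hv hw hv0 hw0 hA hB ihA ihB =>
    exact old_step _ _ _ (TQ.sum A B Z W v w hv hw hv0 hw0 (TQ.atom _ _ ihA) (TQ.atom _ _ ihB))
  | mul A B Z W hA hB ihA ihB =>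
    exact old_step _ _ _ (TQ.mul A B Z W (TQ.atom _ _ ihA) (TQ.atom _ _ ihB))
  | univ A Z hA ih => exact old_step _ _ _ (TQ.univ A Z (TQ.atom _ _ ih))
  | ofUniv A W h ih => exact cl_ofUniv A W ih
  | form σ τ κ a ha h f Z hA ih =>
    exact old_step _ _ _ (TQ.form σ τ κ a ha h f Z (TQ.atom _ _ ih))
  | ts A τ g Z W v w hv hw hv0 hw0 h0 hA hg ihA ihg =>
    exact old_step _ _ _ (TQ.ts A τ g Z W v w hv hw hv0 hw0 h0 (TQ.atom _ _ ihA)
      (TQ.hatom _ _ ihg))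
  | drop σ κ g Z h ih => exact old_step _ _ _ (TQ.drop σ κ g Z (TQ.hatom _ _ ih))
  | contact N k f hf h0 g Z hg hk h ih =>
    rw [unst_eq] at hk ⊢
    exact cl_contact N k f hf h0 g Z (becomes_of hg) hk ih
  | contactI N k f hf h0 g Z hg hk h ih =>
    rw [unst_eq] at hk ⊢
    exact cl_contactI ⊥ bot_nat N k f hf h0 g Z (becomes_of hg) hk ih
  | equiv c A B i k h Z hA ih =>
    cases c with
    | false => exact old_step _ _ _ (TQ.equiv false A B i k h Z (TQ.atom _ _ ih))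
    | true => exact old_step _ _ _ (TQ.equiv true A B i k h Z (TQ.hatom _ _ ih))

/-- **The main result.** -/
theorem germs_result : ∃ G : GenCond,
    (∀ (r N : ℕ) (F : Subfield ℂ) (v : Fin r → Fin N → ℕ) (h : MvPolynomial (Fin N) F), 1 ≤ r →
      Function.Injective v → (∀ j, v j ≠ 0) → (∀ w ∈ h.support, InNP v w) → G r N F v h ≠ 0) ∧
    (∀ (σ : Type) (F : MvPolynomial σ ℂ) (Z : RatFunc ℂ),
      Germs G false ⟨σ, Fin 1, fun _ => F⟩ Z →
      ∀ b : Polynomial ℂ, IsLocalBFunction F b →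
      ∀ s₀ : ℂ, Z.denom.eval s₀ = 0 → b.eval s₀ = 0) ∧
    (∀ (σ : Type) (F : MvPolynomial σ ℂ) (Z : RatFunc ℂ),
      Germs G true ⟨σ, Fin 1, fun _ => F⟩ Z →
      ∀ c : Polynomial ℂ, IsLocalBFunction F ((Polynomial.X + 1) * c) →
      ∀ s₀ : ℂ, ((RatFunc.X + 1) * Z).denom.eval s₀ = 0 → c.eval s₀ = 0) ∧
    (∀ (N k : ℕ) (f : MvPowerSeries (Fin N) ℂ), f ≠ 0 → MvPowerSeries.constantCoeff f = 0 →
      ∀ (g : MvPolynomial (Fin (N + (k + k))) ℂ) (Z : RatFunc ℂ), BecomesS f k g →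
      (Germs G false ⟨Fin (N + (k + k)), Fin 1, fun _ => g⟩ Z →
        ∀ b : Polynomial ℂ, IsFormalB f b →
        ∀ s₀ : ℂ, (∀ n : ℕ, s₀ ≠ n) → (unst k Z).denom.eval s₀ = 0 → b.eval s₀ = 0) ∧
      (Germs G true ⟨Fin (N + (k + k)), Fin 1, fun _ => g⟩ Z →
        ∀ c : Polynomial ℂ, IsFormalB f ((Polynomial.X + 1) * c) →
        ∀ s₀ : ℂ, s₀ ≠ k → ((RatFunc.X + 1) * unst k Z).denom.eval s₀ = 0 →
          c.eval s₀ = 0)) ∧
    (∀ (σ τ : Type) (g : MvPolynomial σ ℂ) (g' : MvPolynomial τ ℂ) (Z W : RatFunc ℂ),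
      constantCoeff g = 0 → constantCoeff g' = 0 →
      Germs G false ⟨σ, Fin 1, fun _ => g⟩ Z → Germs G false ⟨τ, Fin 1, fun _ => g'⟩ W →
      Germs G true ⟨σ ⊕ τ, Fin 1, fun _ => rename Sum.inl g * rename Sum.inr g'⟩ (Z * W)) := by
  classical
  obtain ⟨G, hG, hB⟩ := exists_genCond
  refine ⟨G, hG, fun σ F Z h b hb s₀ hs => ?_, fun σ F Z h c hc s₀ hs => ?_,
    fun N k f hf h0 g Z hg => ⟨fun h b hb s₀ hn hs => ?_, fun h => ?_⟩,
    fun σ τ g g' Z W h0 h0' h h' => ?_⟩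
  · have hC := germs_closure hB false _ Z h
    obtain ⟨t, ht, h1⟩ := hC.pole s₀ hs
    rw [AddSubmonoid.mem_bot] at ht
    rw [ht, sub_zero] at h1
    obtain ⟨j, hj⟩ := hC.ne
    exact root_of_sf hC.fin F hj s₀ h1 b hb
  · have hC := germs_closure hB true _ Z h
    obtain ⟨t, ht, h1⟩ := hC.ref rfl s₀ hs
    rw [AddSubmonoid.mem_bot] at ht
    subst ht
    have h2 := h1 0
    rw [sub_zero] at h2
    obtain ⟨j, hj⟩ := hC.ne
    have hfin : Finite σ := hC.fin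
    exact formal_of_rf F hj s₀ h2 c hc
  · have hC := germs_closure hB false _ Z h
    obtain ⟨j, hj⟩ := hC.ne
    rw [unst_eq] at hs
    rcases root_unref ⊥ bot_nat hC s₀ hs hn with h1 | ⟨t, ht, h1⟩
    · rw [h1]
      exact (becomes_local hf h0 hb (becomes_of hg)).1
    · rw [AddSubmonoid.mem_bot] at ht
      rw [ht, sub_zero] at h1
      obtain ⟨c, rfl⟩ := Pool.Agent.Y229.PS.exists_factor
        (becomes_local hf h0 hb (becomes_of hg)).1
      rw [Polynomial.eval_mul, root_of_becomes hf h0 hj (becomes_of hg) s₀ h1 c hb, mul_zero]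
  · have hC := germs_closure hB true _ Z h
    obtain ⟨j, hj⟩ := hC.ne
    intro c hc s₀ hk hs
    rw [unst_eq] at hs
    obtain ⟨t, ht, h1⟩ := hC.ref rfl _ (pole_unstab k Z s₀ hs hk)
    rw [AddSubmonoid.mem_bot] at ht
    subst ht
    have h2 := h1 0
    rw [sub_zero] at h2
    exact root_of_becomes hf h0 hj (becomes_of hg) s₀ h2 c hc
  · have hC := germs_closure hB false _ Z h
    obtain ⟨j, hj⟩ := hC.ne
    have hfin : Finite σ := hC.fin
    exact Germs.prod g hj g' h0 h0' Z W h h'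

end Pool.Agent.K6.H39.RC
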