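import Pool.Agent.K6.H39.RC.Abs
import Pool.Agent.K6.H39.RC.SDefs
import Pool.Agent.Y230.TL.Stm

set_option autoImplicit false
set_option linter.unusedSectionVars false

/-! # Reduced forced roots at `-1` of germs which are reducible at nearby points -/

namespace Pool.Agent.K6.H39.RC

open MvPolynomial Pool.Agent.W574.SM
open Pool.Agent.Y230.TL (RE RF)

variable {σ : Type}

theorem taylor_mul (p : σ → ℂ) (g h : MvPolynomial σ ℂ) :
    taylor p (g * h) = taylor p g * taylor p h := by
  rw [taylor, map_mul, MvPolynomial.coe_mul]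
  rfl

theorem taylor_add (p : σ → ℂ) (g h : MvPolynomial σ ℂ) :
    taylor p (g + h) = taylor p g + taylor p h := by
  rw [taylor, map_add, MvPolynomial.coe_add]
  rfl

theorem taylor_pow (p : σ → ℂ) (g : MvPolynomial σ ℂ) (n : ℕ) :
    taylor p (g ^ n) = taylor p g ^ n := by
  rw [taylor, map_pow, MvPolynomial.coe_pow]
  rfl

/-- `taylor` as a ring homomorphism -/
noncomputable def taylorHom (p : σ → ℂ) : MvPolynomial σ ℂ →+* MvPowerSeries σ ℂ :=
  MvPolynomial.coeToMvPowerSeries.ringHom.comp
    (aeval (fun i => X i + C (p i)) : MvPolynomial σ ℂ →ₐ[ℂ] MvPolynomial σ ℂ).toRingHom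

theorem taylorHom_apply (p : σ → ℂ) (g : MvPolynomial σ ℂ) : taylorHom p g = taylor p g := rfl

theorem taylor_pderiv (p : σ → ℂ) (i : σ) (g : MvPolynomial σ ℂ) :
    taylor p (pderiv i g) = MvPowerSeries.pderiv ℂ i (taylor p g) := by
  rw [taylor, taylor, MvPowerSeries.pderiv_coe]
  congr 1
  induction g using MvPolynomial.induction_on with
  | C a => simp
  | add f g hf hg => rw [map_add, map_add, map_add, map_add, hf, hg]
  | mul_X f j hf =>
    classical
    rw [Derivation.leibniz, map_add, smul_eq_mul, smul_eq_mul, map_mul, map_mul, map_mul, hf,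
      Derivation.leibniz, smul_eq_mul, smul_eq_mul, aeval_X, map_add, pderiv_C, add_zero,
      pderiv_X]
    congr 2
    by_cases h : i = j
    · subst h
      simp
    · rw [Pi.single_eq_of_ne (Ne.symm h)]
      simp

theorem taylor_const (p : σ → ℂ) (g : MvPolynomial σ ℂ) :
    MvPowerSeries.constantCoeff (taylor p g) = eval p g := by
  rw [taylor, ← MvPowerSeries.coeff_zero_eq_constantCoeff_apply, MvPolynomial.coeff_coe,
    ← MvPolynomial.constantCoeff_eq]
  induction g using MvPolynomial.induction_on with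
  | C a => simp
  | add f g hf hg => rw [map_add, map_add, map_add, hf, hg]
  | mul_X f j hf => rw [map_mul, map_mul, map_mul, hf]; simp

theorem taylor_ne (p : σ → ℂ) (g : MvPolynomial σ ℂ) (hg : g ≠ 0) : taylor p g ≠ 0 := by
  rw [taylor, Ne, MvPolynomial.coe_eq_zero_iff]
  intro h
  apply hg
  have h1 := congrArg (aeval (fun i => X i - C (p i)) :
    MvPolynomial σ ℂ →ₐ[ℂ] MvPolynomial σ ℂ) h
  rw [map_zero] at h1
  have h2 : ((aeval (fun i => X i - C (p i)) : MvPolynomial σ ℂ →ₐ[ℂ] MvPolynomial σ ℂ).comp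
      (aeval (fun i => X i + C (p i)))) = AlgHom.id ℂ _ := by
    ext i
    simp [AlgHom.comp_apply]
  have h3 := congrArg (fun φ : MvPolynomial σ ℂ →ₐ[ℂ] MvPolynomial σ ℂ => φ g) h2
  simp only [AlgHom.comp_apply, AlgHom.id_apply] at h3
  rw [← h3]
  exact h1

theorem sq_weyl (p : σ → ℂ) (h q : MvPowerSeries σ ℂ) (Q : Module.End ℂ (MvPolynomial σ ℂ))
    (hQ : Q ∈ weyl σ) : ∀ u : ℕ → MvPolynomial σ ℂ,
      Sq h q (fun n => taylor p (u n)) → Sq h q (fun n => taylor p (Q (u n))) := by
  classical
  unfold weyl at hQ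
  induction hQ using Algebra.adjoin_induction with
  | mem Q hQ =>
    intro u hu
    rcases hQ with ⟨i, rfl⟩ | ⟨i, rfl⟩
    · have h1 := hu.mulC (taylor p (X i))
      simpa only [LinearMap.mulLeft_apply, taylor_mul] using h1
    · have h1 := hu.der (MvPowerSeries.pderiv ℂ i)
      have e : (fun n => (MvPowerSeries.pderiv ℂ i) (taylor p (u n))) =
          fun n => taylor p (pderiv i (u n)) := by
        funext n
        exact (taylor_pderiv p i _).symm
      rw [e] at h1
      exact h1
  | algebraMap r =>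
    intro u hu
    have h1 := hu.mulC (taylor p (C r))
    simpa only [Module.algebraMap_end_apply, ← C_mul', taylor_mul] using h1
  | add Q Q' _ _ ih ih' =>
    intro u hu
    have h1 := (ih u hu).add (ih' u hu)
    simpa only [LinearMap.add_apply, taylor_add] using h1
  | mul Q Q' _ _ ih ih' =>
    intro u hu
    exact ih _ (ih' u hu)

/-- **Reduced forced roots at `-1` of reducible germs.** If the Taylor expansion of `g` at `p` is `h q`
with formal power series `h`, `q`, `h(0) = q(0) = 0`, and `q` is regular modulo `h`, then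
`B(p, -1) = 0` for all equations `(s + 1) B(x, s) g ^ s = P(s) g ^ (s + 1)`. -/
theorem rf_red (g : MvPolynomial σ ℂ) (hg : g ≠ 0) (p : σ → ℂ) (hs : Splits p g) :
    RF g p (-1) := by
  classical
  obtain ⟨h, q, e, h0, q0, hc⟩ := hs
  intro B P hRE
  have : IsDomain (MvPowerSeries σ ℂ) := NoZeroDivisors.to_isDomain _
  have hF : h * q ≠ 0 := by
    rw [← e]
    exact taylor_ne p g hg
  set u : ℕ → MvPowerSeries σ ℂ := fun n => ∑ m ∈ P.support,
    ((n : MvPowerSeries σ ℂ) + (-1)) ^ m *
      taylor p ((P m : Module.End ℂ (MvPolynomial σ ℂ)) (g ^ n)) with hu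
  have hSq : Sq h q u := by
    refine Sq.sum _ _ fun m _ => ?_
    refine Sq.mulPow (sq_weyl p h q _ (P m).2 _ ?_) (-1) m
    have h1 := Sq.pow h q
    rw [← e] at h1
    simpa only [taylor_pow] using h1
  obtain ⟨M, α, β, h1⟩ := at_minus_one h q hF u hSq (B.map (taylorHom p)) fun k => by
      have h2 := congrArg (taylorHom p) (hRE k)
      rw [Finsupp.sum, map_sum, smul_eq_C_mul, map_mul, map_mul] at h2
      have hC : ∀ c : ℂ, taylorHom p (C c) = MvPowerSeries.C c := fun c => by
        rw [taylorHom_apply, taylor, algHom_C, algebraMap_eq, MvPolynomial.coe_C]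
      have e1 : taylorHom p (C ((k : ℂ) + 1)) = (k : MvPowerSeries σ ℂ) + 1 := by
        rw [C_add, C_1, map_add, map_one, map_natCast, map_natCast]
      have e2 : taylorHom p (Polynomial.eval (k : MvPolynomial σ ℂ) B) =
          Polynomial.eval (k : MvPowerSeries σ ℂ) (B.map (taylorHom p)) := by
        rw [Polynomial.eval_natCast_map]
      rw [e1, e2, map_pow] at h2
      change ((k : MvPowerSeries σ ℂ) + 1) * (_ * taylor p g ^ k) = _ at h2
      rw [← e, h2, hu]
      refine Finset.sum_congr rfl fun m _ => ?_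
      rw [smul_eq_C_mul, map_mul]
      congr 1
      rw [C_pow, map_pow]
      congr 1
      rw [map_natCast, map_natCast]
      push_cast
      ring
  obtain ⟨x, y, h2⟩ := mem_of_coprime h q hF hc M _ α β h1
  have h3 := congrArg MvPowerSeries.constantCoeff h2
  rw [map_add, map_mul, map_mul, h0, q0, mul_zero, mul_zero, add_zero] at h3
  have e3 : MvPowerSeries.constantCoeff (Polynomial.eval (-1 : MvPowerSeries σ ℂ)
      (B.map (taylorHom p))) = eval p (Polynomial.eval (C (-1)) B) := by
    have e4 : (-1 : MvPowerSeries σ ℂ) = taylorHom p (C (-1 : ℂ)) := by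
      rw [map_neg, map_neg, map_one, map_one]
    rw [e4, Polynomial.eval_map, Polynomial.eval₂_at_apply, taylorHom_apply, taylor_const]
  rw [← e3]
  exact h3

/-- **Reduced forced roots at `-1`.** It is enough that the germs at the points of a set, whose
Zariski closure contains the origin, are reducible. -/
theorem rf_near (g : MvPolynomial σ ℂ) (hg : g ≠ 0) (S : Set (σ → ℂ))
    (hS : ∀ B : MvPolynomial σ ℂ, (∀ p ∈ S, eval p B = 0) → eval 0 B = 0)
    (hs : ∀ p ∈ S, Splits p g) : RF g 0 (-1) := by
  intro B P hRE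
  exact hS _ fun p hp => rf_red g hg p (hs p hp) B P hRE

end Pool.Agent.K6.H39.RC
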