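import Pool.Agent.K6.H39.RC.Defs

set_option autoImplicit false

/-! # Germs at the origin: the classes for the weak conjecture -/

namespace Pool.Agent.K6.H39.RC

open MvPolynomial Pool.Agent.W574.SM Pool.Agent.W574.CN Pool.Agent.W574.RO
open Pool.Agent.Y229 (lap lap2)
open Pool.Agent.W425.SM (SmoothFan Principal sparse)

/-- the `v_j` on the face of the Newton polyhedron where the linear form `w` is minimal -/
def OnFace {r N : ℕ} (v : Fin r → Fin N → ℕ) (w : Fin N → ℝ) (j : Fin r) : Prop :=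
  ∀ j', ∑ i, w i * (v j i : ℝ) ≤ ∑ i, w i * (v j' i : ℝ)

open Classical in
/-- The polynomial `∑_j a_j x ^ (v j)` is nondegenerate for the compact faces of its Newton
polyhedron: for every `w` with positive coordinates the sum of the terms on which `w` is minimal and
its derivatives have no common zero in the torus. -/
def Nondegenerate {r N : ℕ} (v : Fin r → Fin N → ℕ) (a : Fin r → ℂ) : Prop :=
  ∀ w : Fin N → ℝ, (∀ i, 0 < w i) → ∀ z : Fin N → ℂ, (∀ i, z i ≠ 0) →
    ¬ ((∑ j, if OnFace v w j then a j * ∏ i, z i ^ v j i else 0) = 0 ∧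
      ∀ i, (∑ j, if OnFace v w j then a j * (v j i : ℂ) * ∏ i, z i ^ v j i else 0) = 0)

/-- Two classes of germs at the origin, given by generators, with their local topological zeta
functions: `WGerms G false A Z` for ideals and `WGerms G true A Z` for principal ideals
(hypersurfaces). They are the smallest classes with the following properties. -/
inductive WGerms (G : GenCond) : Bool → Fam → RatFunc ℂ → Prop
  /-- the ideals in `BaseI` -/
  | baseI (A : Fam) (Z : RatFunc ℂ) (h : BaseI A Z) : WGerms G false A Z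
  /-- the hypersurfaces in `BaseH` -/
  | baseH (A : Fam) (Z : RatFunc ℂ) (h : BaseH G A Z) : WGerms G true A Z
  /-- the principal ideals generated by nondegenerate polynomials -/
  | nondeg (r N : ℕ) (hr : 1 ≤ r) (v : Fin r → Fin N → ℕ) (a : Fin r → ℂ)
      (hv : Function.Injective v) (hv0 : ∀ j, v j ≠ 0) (hnd : Nondegenerate v a)
      (R : SmoothFan N) (hR : Principal v R) :
      WGerms G false ⟨Fin N, Fin 1, fun _ => sparse v a⟩ (zetaGen v R)
  /-- a hypersurface is a principal ideal -/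
  | hyp (A : Fam) (Z : RatFunc ℂ) (h : WGerms G true A Z) : WGerms G false A Z
  /-- a principal ideal whose zeta function has at most a simple pole at `-1` (and no poles in `ℕ`,
  where zeta functions have no poles) is a hypersurface of the class -/
  | simple (σ : Type) (g : MvPolynomial σ ℂ) (Z : RatFunc ℂ)
      (h : WGerms G false ⟨σ, Fin 1, fun _ => g⟩ Z)
      (h1 : ∀ i : ℕ, ((RatFunc.X + 1) * Z).denom.eval ((i : ℂ) - 1) ≠ 0) :
      WGerms G true ⟨σ, Fin 1, fun _ => g⟩ Z
  /-- a principal ideal `(g)` is a hypersurface of the class if the origin is in the Zariski closure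
  of a set `S` of points `p` at which the germ of `g` splits -/
  | split (σ : Type) (g : MvPolynomial σ ℂ) (Z : RatFunc ℂ)
      (h : WGerms G false ⟨σ, Fin 1, fun _ => g⟩ Z) (S : Set (σ → ℂ))
      (hS : ∀ B : MvPolynomial σ ℂ, (∀ p ∈ S, eval p B = 0) → eval 0 B = 0)
      (hs : ∀ p ∈ S, Splits p g) : WGerms G true ⟨σ, Fin 1, fun _ => g⟩ Z
  /-- the powers `g ^ k`, `k ≥ 2`, of the principal ideals of the class; if `p(s) / q(s)` is the local
  topological zeta function of `g`, then `p(k s) / q(k s)` is the one of `g ^ k`; it has no pole in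
  `ℕ` -/
  | pow (σ : Type) (g : MvPolynomial σ ℂ) (k : ℕ) (hk : 2 ≤ k) (p q : Polynomial ℂ) (hq : q ≠ 0)
      (h : WGerms G false ⟨σ, Fin 1, fun _ => g⟩
        (algebraMap (Polynomial ℂ) (RatFunc ℂ) p / algebraMap (Polynomial ℂ) (RatFunc ℂ) q))
      (h1 : ∀ i : ℕ, ((RatFunc.X + 1) *
        (algebraMap (Polynomial ℂ) (RatFunc ℂ) (p.comp (Polynomial.C (k : ℂ) * Polynomial.X)) /
          algebraMap (Polynomial ℂ) (RatFunc ℂ)
            (q.comp (Polynomial.C (k : ℂ) * Polynomial.X)))).denom.eval (i : ℂ) ≠ 0) :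
      WGerms G true ⟨σ, Fin 1, fun _ => g ^ k⟩
        (algebraMap (Polynomial ℂ) (RatFunc ℂ) (p.comp (Polynomial.C (k : ℂ) * Polynomial.X)) /
          algebraMap (Polynomial ℂ) (RatFunc ℂ) (q.comp (Polynomial.C (k : ℂ) * Polynomial.X)))
  /-- the sum of two ideals in disjoint sets of variables: if `1 - Z = s ∫ V(t) exp(- s t) dt` and
  `1 - W = s ∫ W'(t) exp(- s t) dt`, where no constant function occurs in the exponential
  polynomials `V`, `W'` (given by `v` and `w`), then the local topological zeta function of the sum is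
  `1 - s ∫ V(t) W'(t) exp(- s t) dt` -/
  | sum (A B : Fam) (Z W : RatFunc ℂ) (v w : ℂ × ℕ →₀ ℂ) (hv : 1 - Z = RatFunc.X * lap v)
      (hw : 1 - W = RatFunc.X * lap w) (hv0 : ∀ p ∈ v.support, p.1 ≠ 0)
      (hw0 : ∀ p ∈ w.support, p.1 ≠ 0) (hA : WGerms G false A Z) (hB : WGerms G false B W) :
      WGerms G false (A.sum B) (1 - RatFunc.X * lap2 v w)
  /-- the product of two ideals in disjoint sets of variables -/
  | mul (A B : Fam) (Z W : RatFunc ℂ) (hA : WGerms G false A Z) (hB : WGerms G false B W) :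
      WGerms G false (A.mul B) (Z * W)
  /-- the germ of `∑ y_j f_j(x)` has the local topological zeta function `Z / (s + 1)`, if `Z` is the
  one of the ideal `(f_j)` -/
  | univ (A : Fam) (Z : RatFunc ℂ) (hA : WGerms G false A Z) :
      WGerms G true (univF A) (Z * (RatFunc.X + 1)⁻¹)
  /-- conversely, if `∑ y_j f_j(x)` is in the class, with `W`, then the ideal `(f_j)` is in the class,
  with `(s + 1) W` -/
  | ofUniv (A : Fam) (W : RatFunc ℂ) (h : WGerms G true (univF A) W) :
      WGerms G false A ((RatFunc.X + 1) * W)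
  /-- the germ of `h(x) ∏_t (∑_j y_{t, j} f_{t, j}(x)) ^ a_t` has the local topological zeta function
  `Z ∏_t 1 / (a_t s + 1)`, if `Z` is the one of the ideal `h ∏_t (f_{t, j})_j ^ a_t` -/
  | form (σ τ : Type) [Fintype τ] [DecidableEq τ] [Nonempty τ] (κ : τ → Type)
      [∀ t, Fintype (κ t)] (a : τ → ℕ) (ha : ∀ t, 0 < a t) (h : MvPolynomial σ ℂ)
      (f : (t : τ) → κ t → MvPolynomial σ ℂ) (Z : RatFunc ℂ)
      (hA : WGerms G false (genF a h f) Z) :
      WGerms G true (formF a h f) (Z * ∏ t, fac (a t) 1)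
  /-- the Thom-Sebastiani sum `∑ y_j f_j(x) + g(z)`, `g(0) = 0`: if
  `1 - Z = s ∫ V(t) exp(- s t) dt` and `1 - (s + 1) W = s ∫ U(t) exp(- s t) dt`, where no constant
  function occurs in the exponential polynomials `V`, `U` (given by `v` and `w`), then
  `1 - (s + 1) Z_F = s ∫ V(t) U(t) exp(- s t) dt` -/
  | ts (A : Fam) (τ : Type) (g : MvPolynomial τ ℂ) (Z W : RatFunc ℂ) (v w : ℂ × ℕ →₀ ℂ)
      (hv : 1 - Z = RatFunc.X * lap v) (hw : 1 - (RatFunc.X + 1) * W = RatFunc.X * lap w)
      (hv0 : ∀ p ∈ v.support, p.1 ≠ 0) (hw0 : ∀ p ∈ w.support, p.1 ≠ 0)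
      (h0 : constantCoeff g = 0)
      (hA : WGerms G false A Z) (hg : WGerms G true ⟨τ, Fin 1, fun _ => g⟩ W) :
      WGerms G true (tsF A τ g) ((1 - RatFunc.X * lap2 v w) * (RatFunc.X + 1)⁻¹)
  /-- variables which do not occur may be dropped -/
  | drop (σ κ : Type) (g : MvPolynomial σ ℂ) (Z : RatFunc ℂ)
      (h : WGerms G true ⟨σ ⊕ κ, Fin 1, fun _ => rename Sum.inl g⟩ Z) :
      WGerms G true ⟨σ, Fin 1, fun _ => g⟩ Z
  /-- stable contact equivalence: if `f(x) + y_1 z_1 + ⋯ + y_k z_k` becomes the polynomial `g` in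
  suitable formal coordinates at the origin, up to a unit factor, then the local topological zeta
  function `Z_f` of `f` is `unst k Z`, where `Z` is the one of `g`; `k` is not a pole of it -/
  | contact (N k : ℕ) (f : MvPolynomial (Fin N) ℂ) (hf : f ≠ 0) (h0 : constantCoeff f = 0)
      (g : MvPolynomial (Fin (N + (k + k))) ℂ) (Z : RatFunc ℂ)
      (hg : BecomesS (f : MvPowerSeries (Fin N) ℂ) k g)
      (hk : ((RatFunc.X + 1) * unst k Z).denom.eval (k : ℂ) ≠ 0)
      (h : WGerms G true ⟨Fin (N + (k + k)), Fin 1, fun _ => g⟩ Z) :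
      WGerms G true ⟨Fin N, Fin 1, fun _ => f⟩ (unst k Z)
  /-- the same for principal ideals; zeta functions have no poles in `ℕ` -/
  | contactI (N k : ℕ) (f : MvPolynomial (Fin N) ℂ) (hf : f ≠ 0) (h0 : constantCoeff f = 0)
      (g : MvPolynomial (Fin (N + (k + k))) ℂ) (Z : RatFunc ℂ)
      (hg : BecomesS (f : MvPowerSeries (Fin N) ℂ) k g)
      (hk : ∀ n : ℕ, (unst k Z).denom.eval (n : ℂ) ≠ 0)
      (h : WGerms G false ⟨Fin (N + (k + k)), Fin 1, fun _ => g⟩ Z) :
      WGerms G false ⟨Fin N, Fin 1, fun _ => f⟩ (unst k Z)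
  /-- the variables and the generators may be indexed differently -/
  | equiv (c : Bool) (A B : Fam) (i : A.σ ≃ B.σ) (k : A.ι ≃ B.ι)
      (h : ∀ j, B.f (k j) = rename i (A.f j)) (Z : RatFunc ℂ) (hA : WGerms G c A Z) :
      WGerms G c B Z

end Pool.Agent.K6.H39.RC
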