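import Pool.Agent.K6.H39.RC.Main
import Pool.Agent.K6.H39.RC.WDefs
import Pool.Agent.Y229.CF.Loc

set_option autoImplicit false
set_option linter.unusedSectionVars false
set_option linter.unusedVariables false

/-! # Germs at the origin: the induction for the weak conjecture -/

namespace Pool.Agent.K6.H39.RC

open MvPolynomial Pool.Agent.W574.SM Pool.Agent.W574.CN Pool.Agent.W574.RO Pool.Agent.Y229
open Pool.Agent.W574.MO Pool.Agent.W425.SM Pool.Agent.W425.SV Pool.Agent.W422.GC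
open Pool.Agent.W425.ND Pool.Agent.W574.HS Pool.Agent.TH192.DT Pool.Agent.W574.LM
open Pool.Agent.Y230.TL Pool.Agent.R852.TL Pool.Agent.TH187.SA
open Pool.Agent.R852.TP (nat_div pole_scale)
open Pool.Agent.N103 (tJ' tU' tL')
open Pool.Agent.H628R4.TP (IsLocalBFunction)
open Pool.Agent.Y229.PS (Becomes becomes_local IsFormalBFunction formal_of_local)
open Pool.Agent.Y229.RE (unstab)

theorem cl_mono {c : Bool} {A : Fam} {Z : RatFunc ℂ} (T : AddSubmonoid ℂ) (h : Cl ⊥ c A Z) :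
    Cl T c A Z := by
  refine ⟨h.fin, h.ne, fun s hs => ?_, fun h0 s hs => ?_⟩
  · obtain ⟨t, ht, h2⟩ := h.pole s hs
    rw [AddSubmonoid.mem_bot] at ht
    subst ht
    exact ⟨0, AddSubmonoid.zero_mem _, h2⟩
  · obtain ⟨t, ht, h2⟩ := h.ref h0 s hs
    rw [AddSubmonoid.mem_bot] at ht
    subst ht
    exact ⟨0, AddSubmonoid.zero_mem _, h2⟩

theorem clw_nondeg (r N : ℕ) (hr : 1 ≤ r) (v : Fin r → Fin N → ℕ) (a : Fin r → ℂ)
    (hv : Function.Injective v) (hv0 : ∀ j, v j ≠ 0) (hnd : Nondegenerate v a)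
    (R : SmoothFan N) (hR : Principal v R) :
    Cl natC false ⟨Fin N, Fin 1, fun _ => sparse v a⟩ (topZetaGLocal v R) := by
  classical
  have : NeZero r := ⟨by omega⟩
  have hnd' : Pool.Agent.Y229.CF.NondegC v a := hnd
  have hne : sparse v a ≠ 0 := Pool.Agent.Y229.CF.spa_ne_zero' hv a hnd'
  refine ⟨inferInstanceAs (Finite (Fin N)), ⟨(0 : Fin 1), hne⟩, fun s hs => ?_,
    fun h => absurd h (by simp)⟩
  obtain ⟨i, hi⟩ := sf_shift_of_local (fun _ : Fin 1 => sparse v a) 0 s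
    (fun H b hb0 hb hH => by
      obtain ⟨h1, K, P, hP⟩ := Pool.Agent.Y229.CF.local_cf hr v a hv hv0 hnd' R hR b hb0
        (localB_of_locEq _ H b hb hH)
      exact pole_of b hb0 h1 _ K P hP s hs) (exists_fe _ ⟨0, hne⟩)
  exact ⟨i, (mem_natC _).2 ⟨i, rfl⟩, hi⟩

theorem clw_simple {σ : Type} (g : MvPolynomial σ ℂ) (Z : RatFunc ℂ)
    (ih : Cl natC false ⟨σ, Fin 1, fun _ => g⟩ Z)
    (h1 : ∀ i : ℕ, ((RatFunc.X + 1) * Z).denom.eval ((i : ℂ) - 1) ≠ 0) :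
    Cl natC true ⟨σ, Fin 1, fun _ => g⟩ Z := by
  obtain ⟨j, hj⟩ := ih.ne
  refine cl_of_sf tL' natC g Z ih.fin hj ih.pole fun t ht => ?_
  obtain ⟨i, rfl⟩ := (mem_natC _).1 ht
  exact h1 i

theorem clw_split (T : AddSubmonoid ℂ) {σ : Type} (g : MvPolynomial σ ℂ) (Z : RatFunc ℂ)
    (ih : Cl T false ⟨σ, Fin 1, fun _ => g⟩ Z) (S : Set (σ → ℂ))
    (hS : ∀ B : MvPolynomial σ ℂ, (∀ p ∈ S, eval p B = 0) → eval 0 B = 0)
    (hsp : ∀ p ∈ S, Splits p g) : Cl T true ⟨σ, Fin 1, fun _ => g⟩ Z := by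
  obtain ⟨j, hj⟩ := ih.ne
  refine ⟨ih.fin, ih.ne, ih.pole, fun _ s hs => ?_⟩
  obtain ⟨t, ht, h2⟩ := ih.pole s (Pool.Agent.Y230.TH.pole_of_ref Z s hs)
  refine ⟨t, ht, fun j' => ?_⟩
  by_cases h3 : s - t = -1
  · rw [h3]
    exact rf_near g hj S hS hsp
  · exact tL'.rf_of_sf g 0 _ h3 h2

theorem clw_pow {σ : Type} (g : MvPolynomial σ ℂ) (k : ℕ) (hk : 2 ≤ k) (p q : Polynomial ℂ)
    (hq : q ≠ 0) (ih : Cl natC false ⟨σ, Fin 1, fun _ => g⟩
      (algebraMap (Polynomial ℂ) (RatFunc ℂ) p / algebraMap (Polynomial ℂ) (RatFunc ℂ) q))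
    (hn : ∀ i : ℕ, ((RatFunc.X + 1) *
      (algebraMap (Polynomial ℂ) (RatFunc ℂ) (p.comp (Polynomial.C (k : ℂ) * Polynomial.X)) /
        algebraMap (Polynomial ℂ) (RatFunc ℂ)
          (q.comp (Polynomial.C (k : ℂ) * Polynomial.X)))).denom.eval (i : ℂ) ≠ 0) :
    Cl natC true ⟨σ, Fin 1, fun _ => g ^ k⟩
      (algebraMap (Polynomial ℂ) (RatFunc ℂ) (p.comp (Polynomial.C (k : ℂ) * Polynomial.X)) /
        algebraMap (Polynomial ℂ) (RatFunc ℂ) (q.comp (Polynomial.C (k : ℂ) * Polynomial.X))) := by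
  classical
  have hk0 : k ≠ 0 := by omega
  have hkC : (k : ℂ) ≠ 0 := by exact_mod_cast hk0
  have hfin : Finite σ := ih.fin
  have hg : g ≠ 0 := by
    obtain ⟨j, hj⟩ := ih.ne
    exact hj
  -- the roots with their origin
  have hroot : ∀ s : ℂ, (algebraMap (Polynomial ℂ) (RatFunc ℂ)
      (p.comp (Polynomial.C (k : ℂ) * Polynomial.X)) / algebraMap (Polynomial ℂ) (RatFunc ℂ)
        (q.comp (Polynomial.C (k : ℂ) * Polynomial.X))).denom.eval s = 0 →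
      ∃ (n j : ℕ) (m : ℕ), j < k ∧ SF (fun _ : Fin 1 => g) 0 (k * s - n) ∧ n + j = k * m := by
    intro s hs
    obtain ⟨t, ht, h1⟩ := ih.pole _ (pole_scale k hk0 p q hq s hs)
    obtain ⟨j, hj, t', ht', h2⟩ := nat_div t ht k hk0
    obtain ⟨n, rfl⟩ := (mem_natC _).1 ht
    obtain ⟨m, rfl⟩ := (mem_natC _).1 ht'
    exact ⟨n, j, m, hj, h1, by exact_mod_cast h2⟩
  have hSF : ∀ (s : ℂ) (n j m : ℕ), j < k → SF (fun _ : Fin 1 => g) 0 (k * s - n) →
      n + j = k * m → SF (fun _ : Fin 1 => g ^ k) 0 (s - m) := by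
    intro s n j m hj h1 h2
    refine sf_of_local _ 0 _ (fun H b hb hH => ?_) (exists_fe _ ⟨(0 : Fin 1), pow_ne_zero k hg⟩)
    have h3 := h1.locEq H _ (loc_shift g hg k j hj H b hb) hH
    rw [Polynomial.eval_comp, Polynomial.eval_mul, Polynomial.eval_sub, Polynomial.eval_C,
      Polynomial.eval_C, Polynomial.eval_X] at h3
    have h2' : (n : ℂ) + j = k * m := by exact_mod_cast h2
    have e : (k : ℂ)⁻¹ * (k * s - n - j) = s - m := by
      have : (k : ℂ) * s - n - j = k * (s - m) := by linear_combination -h2'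
      rw [this, inv_mul_cancel_left₀ hkC]
    rwa [e] at h3
  refine ⟨ih.fin, ⟨(0 : Fin 1), pow_ne_zero k hg⟩, fun s hs => ?_, fun _ s hs => ?_⟩
  · obtain ⟨n, j, m, hj, h1, h2⟩ := hroot s hs
    exact ⟨m, (mem_natC _).2 ⟨m, rfl⟩, hSF s n j m hj h1 h2⟩
  · obtain ⟨n, j, m, hj, h1, h2⟩ := hroot s (Pool.Agent.Y230.TH.pole_of_ref _ s hs)
    refine ⟨m, (mem_natC _).2 ⟨m, rfl⟩, fun _ => ?_⟩
    by_cases h3 : s - m = -1
    · rcases Nat.eq_zero_or_pos m with hm | hm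
      · subst hm
        have hn0 : n = 0 := by omega
        subst hn0
        rw [Nat.cast_zero, sub_zero] at h3 h1 ⊢
        subst h3
        rw [mul_neg_one] at h1
        exact rf_pow g hg k hk h1
      · obtain ⟨i, rfl⟩ : ∃ i, m = i + 1 := ⟨m - 1, by omega⟩
        have h4 : s = i := by
          push_cast at h3
          linear_combination h3
        rw [h4] at hs
        exact absurd hs (hn i)
    · exact tL'.rf_of_sf _ 0 _ h3 (hSF s n j m hj h1 h2)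

theorem clw_ofUniv (T : AddSubmonoid ℂ) (A : Fam) (W : RatFunc ℂ)
    (ih : Cl T true (Pool.Agent.Y230.TH.univFam A) W) :
    Cl T false A ((RatFunc.X + 1) * W) := by
  classical
  have hfin : Finite (A.ι ⊕ A.σ) := ih.fin
  have hfin' : Finite A.σ := Finite.of_injective (Sum.inr : A.σ → A.ι ⊕ A.σ) Sum.inr_injective
  have hne : ∃ j, A.f j ≠ 0 := by
    by_contra hcon
    push Not at hcon
    obtain ⟨j, hj⟩ := ih.ne
    apply hj
    change (∑ j, X (Sum.inl j) * rename Sum.inr (A.f j) : MvPolynomial (A.ι ⊕ A.σ) ℂ) = 0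
    refine Finset.sum_eq_zero fun j _ => ?_
    rw [hcon, map_zero, mul_zero]
  refine ⟨hfin', hne, fun s hs => ?_, fun h => absurd h (by simp)⟩
  obtain ⟨t, ht, h1⟩ := ih.ref rfl s hs
  exact ⟨t, ht, sf_of_univ A.f hne _ (h1 0)⟩

theorem clw_contact (T : AddSubmonoid ℂ) (N k : ℕ) (f : MvPolynomial (Fin N) ℂ) (hf : f ≠ 0)
    (h0 : constantCoeff f = 0) (g : MvPolynomial (Fin (N + (k + k))) ℂ) (Z : RatFunc ℂ)
    (hg : Becomes (f : MvPowerSeries (Fin N) ℂ) k g)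
    (hk : ((RatFunc.X + 1) * unstab k 1 Z).denom.eval (k : ℂ) ≠ 0)
    (ih : Cl T true ⟨Fin (N + (k + k)), Fin 1, fun _ => g⟩ Z) :
    Cl T true ⟨Fin N, Fin 1, fun _ => f⟩ (unstab k 1 Z) := by
  classical
  have hg0 : g ≠ 0 := by
    obtain ⟨j, hj⟩ := ih.ne
    exact hj
  have hf' : (f : MvPowerSeries (Fin N) ℂ) ≠ 0 := by
    rw [Ne, MvPolynomial.coe_eq_zero_iff]
    exact hf
  have h0' : MvPowerSeries.constantCoeff (f : MvPowerSeries (Fin N) ℂ) = 0 := by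
    rw [← MvPowerSeries.coeff_zero_eq_constantCoeff_apply, MvPolynomial.coeff_coe]
    exact h0
  have href : ∀ s : ℂ, ((RatFunc.X + 1) * unstab k 1 Z).denom.eval s = 0 →
      ∃ t ∈ T, RF f 0 (s - t) := by
    intro s hs
    have hsk : s ≠ k := by
      rintro rfl
      exact hk hs
    obtain ⟨t, ht, h1⟩ := ih.ref rfl _ (pole_unstab k Z s hs hsk)
    have h2 := h1 0
    have e : s - k - t = s - t - k := by ring
    rw [e] at h2
    refine ⟨t, ht, rf_of_formal f hf h0 _ fun c hc => ?_⟩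
    exact root_of_becomes hf' h0' hg0 hg (s - t) h2 c (formal_of_local hc)
  refine ⟨inferInstanceAs (Finite (Fin N)), ⟨(0 : Fin 1), hf⟩, fun s hs => ?_, fun _ s hs => ?_⟩
  · rcases Pool.Agent.Y230.TH.ref_of_pole _ s hs with h3 | h3
    · obtain ⟨t, ht, h4⟩ := href s h3
      exact ⟨t, ht, tL'.sf_of_rf f 0 _ h4⟩
    · refine ⟨0, T.zero_mem, ?_⟩
      rw [sub_zero, h3]
      exact sf_minus_one f hf h0
  · obtain ⟨t, ht, h4⟩ := href s hs
    exact ⟨t, ht, fun _ => h4⟩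

theorem nat_nat : ∀ t ∈ natC, ∃ n : ℕ, (n : ℂ) = t := fun t ht => (mem_natC t).1 ht

/-- one of the steps which are known -/
theorem old_stepw (c : Bool) (A : Fam) (Z : RatFunc ℂ)
    (h : TQ (fun A Z => Cl natC false A Z) (fun A Z => Cl natC true A Z) c A Z) :
    Cl natC c A Z :=
  tq_closure tJ' tU' tL' natC nat_div _ _ (fun A Z h => ⟨h.fin, h.ne, h.pole⟩) (fun A Z h => h)
    c A Z h

theorem wgerms_closure {G : GenCond} (hG : ∀ A Z, BaseH G A Z → Cl ⊥ true A Z) (c : Bool)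
    (A : Fam) (Z : RatFunc ℂ) (h : WGerms G c A Z) : Cl natC c A Z := by
  induction h with
  | baseI A Z h =>
    obtain ⟨h1, h2, h3⟩ := baseI_poles A Z h
    exact ⟨h1, h2, fun s hs => ⟨0, AddSubmonoid.zero_mem _, by rw [sub_zero]; exact h3 s hs⟩,
      fun h => absurd h (by simp)⟩
  | baseH A Z h => exact cl_mono natC (hG A Z h)
  | nondeg r N hr v a hv hv0 hnd R hR => exact clw_nondeg r N hr v a hv hv0 hnd R hR
  | hyp A Z h ih => exact ⟨ih.fin, ih.ne, ih.pole, fun h => absurd h (by simp)⟩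
  | simple σ g Z h h1 ih => exact clw_simple g Z ih h1
  | split σ g Z h S hS hs ih => exact clw_split natC g Z ih S hS hs
  | pow σ g k hk p q hq h h1 ih => exact clw_pow g k hk p q hq ih h1
  | sum A B Z W v w hv hw hv0 hw0 hA hB ihA ihB =>
    exact old_stepw _ _ _ (TQ.sum A B Z W v w hv hw hv0 hw0 (TQ.atom _ _ ihA) (TQ.atom _ _ ihB))
  | mul A B Z W hA hB ihA ihB =>
    exact old_stepw _ _ _ (TQ.mul A B Z W (TQ.atom _ _ ihA) (TQ.atom _ _ ihB))
  | univ A Z hA ih => exact old_stepw _ _ _ (TQ.univ A Z (TQ.atom _ _ ih))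
  | ofUniv A W h ih => exact clw_ofUniv natC A W ih
  | form σ τ κ a ha h f Z hA ih =>
    exact old_stepw _ _ _ (TQ.form σ τ κ a ha h f Z (TQ.atom _ _ ih))
  | ts A τ g Z W v w hv hw hv0 hw0 h0 hA hg ihA ihg =>
    exact old_stepw _ _ _ (TQ.ts A τ g Z W v w hv hw hv0 hw0 h0 (TQ.atom _ _ ihA)
      (TQ.hatom _ _ ihg))
  | drop σ κ g Z h ih => exact old_stepw _ _ _ (TQ.drop σ κ g Z (TQ.hatom _ _ ih))
  | contact N k f hf h0 g Z hg hk h ih =>
    rw [unst_eq] at hk ⊢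
    exact clw_contact natC N k f hf h0 g Z (becomes_of hg) hk ih
  | contactI N k f hf h0 g Z hg hk h ih =>
    rw [unst_eq] at hk ⊢
    exact cl_contactI natC nat_nat N k f hf h0 g Z (becomes_of hg) hk ih
  | equiv c A B i k h Z hA ih =>
    cases c with
    | false => exact old_stepw _ _ _ (TQ.equiv false A B i k h Z (TQ.atom _ _ ih))
    | true => exact old_stepw _ _ _ (TQ.equiv true A B i k h Z (TQ.hatom _ _ ih))

/-- products `g(x) g'(z)` -/
theorem WGerms.prod {G : GenCond} {σ τ : Type} [Finite σ] (g : MvPolynomial σ ℂ) (hg : g ≠ 0)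
    (g' : MvPolynomial τ ℂ)
    (h0 : constantCoeff g = 0) (h0' : constantCoeff g' = 0) (Z W : RatFunc ℂ)
    (h : WGerms G false ⟨σ, Fin 1, fun _ => g⟩ Z) (h' : WGerms G false ⟨τ, Fin 1, fun _ => g'⟩ W) :
    WGerms G true ⟨σ ⊕ τ, Fin 1, fun _ => rename Sum.inl g * rename Sum.inr g'⟩ (Z * W) := by
  refine WGerms.split _ _ _ (WGerms.equiv false
    (Fam.mul ⟨σ, Fin 1, fun _ => g⟩ ⟨τ, Fin 1, fun _ => g'⟩)
    ⟨σ ⊕ τ, Fin 1, fun _ => rename Sum.inl g * rename Sum.inr g'⟩ (Equiv.refl (σ ⊕ τ))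
    (⟨fun _ => 0, fun _ => (0, 0), fun p => by
      apply Prod.ext <;> exact Subsingleton.elim (α := Fin 1) _ _,
      fun _ => Subsingleton.elim (α := Fin 1) _ _⟩ : Fin 1 × Fin 1 ≃ Fin 1) (fun j => ?_) _
    (WGerms.mul _ _ Z W h h')) {0} (fun B hB => hB 0 rfl) ?_
  · change rename Sum.inl g * rename Sum.inr g' =
      rename (Equiv.refl (σ ⊕ τ)) (rename Sum.inl g * rename Sum.inr g')
    rw [Equiv.coe_refl, rename_id_apply]
  · rintro p hp
    rw [Set.mem_singleton_iff.1 hp]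
    exact splits_mul g hg g' h0 h0'

/-- **The main result.** -/
theorem wgerms_result : ∃ G : GenCond,
    (∀ (r N : ℕ) (F : Subfield ℂ) (v : Fin r → Fin N → ℕ) (h : MvPolynomial (Fin N) F), 1 ≤ r →
      Function.Injective v → (∀ j, v j ≠ 0) → (∀ w ∈ h.support, InNP v w) → G r N F v h ≠ 0) ∧
    (∀ (σ : Type) (F : MvPolynomial σ ℂ) (Z : RatFunc ℂ),
      WGerms G false ⟨σ, Fin 1, fun _ => F⟩ Z →
      ∀ s₀ : ℂ, Z.denom.eval s₀ = 0 → ∃ i : ℕ, ∀ b : Polynomial ℂ, IsLocalBFunction F b →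
        b.eval (s₀ - i) = 0) ∧
    (∀ (σ : Type) (F : MvPolynomial σ ℂ) (Z : RatFunc ℂ),
      WGerms G true ⟨σ, Fin 1, fun _ => F⟩ Z →
      ∀ s₀ : ℂ, ((RatFunc.X + 1) * Z).denom.eval s₀ = 0 → ∃ i : ℕ, ∀ c : Polynomial ℂ,
        IsLocalBFunction F ((Polynomial.X + 1) * c) → c.eval (s₀ - i) = 0) ∧
    (∀ (N k : ℕ) (f : MvPowerSeries (Fin N) ℂ), f ≠ 0 → MvPowerSeries.constantCoeff f = 0 →
      ∀ (g : MvPolynomial (Fin (N + (k + k))) ℂ) (Z : RatFunc ℂ), BecomesS f k g →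
      (WGerms G false ⟨Fin (N + (k + k)), Fin 1, fun _ => g⟩ Z →
        ∀ s₀ : ℂ, (∀ n : ℕ, s₀ ≠ n) → (unst k Z).denom.eval s₀ = 0 → ∃ i : ℕ,
          ∀ b : Polynomial ℂ, IsFormalB f b → b.eval (s₀ - i) = 0) ∧
      (WGerms G true ⟨Fin (N + (k + k)), Fin 1, fun _ => g⟩ Z →
        ∀ s₀ : ℂ, s₀ ≠ k → ((RatFunc.X + 1) * unst k Z).denom.eval s₀ = 0 → ∃ i : ℕ,
          ∀ c : Polynomial ℂ, IsFormalB f ((Polynomial.X + 1) * c) → c.eval (s₀ - i) = 0)) ∧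
    (∀ (σ τ : Type) (g : MvPolynomial σ ℂ) (g' : MvPolynomial τ ℂ) (Z W : RatFunc ℂ),
      constantCoeff g = 0 → constantCoeff g' = 0 →
      WGerms G false ⟨σ, Fin 1, fun _ => g⟩ Z → WGerms G false ⟨τ, Fin 1, fun _ => g'⟩ W →
      WGerms G true ⟨σ ⊕ τ, Fin 1, fun _ => rename Sum.inl g * rename Sum.inr g'⟩ (Z * W)) := by
  classical
  obtain ⟨G, hG, hB⟩ := exists_genCond
  refine ⟨G, hG, fun σ F Z h s₀ hs => ?_, fun σ F Z h s₀ hs => ?_,
    fun N k f hf h0 g Z hg => ⟨fun h s₀ hn hs => ?_, fun h => ?_⟩,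
    fun σ τ g g' Z W h0 h0' h h' => ?_⟩
  · have hC := wgerms_closure hB false _ Z h
    obtain ⟨t, ht, h1⟩ := hC.pole s₀ hs
    obtain ⟨i, rfl⟩ := (mem_natC _).1 ht
    obtain ⟨j, hj⟩ := hC.ne
    exact ⟨i, fun b hb => root_of_sf hC.fin F hj _ h1 b hb⟩
  · have hC := wgerms_closure hB true _ Z h
    obtain ⟨t, ht, h1⟩ := hC.ref rfl s₀ hs
    obtain ⟨i, rfl⟩ := (mem_natC _).1 ht
    obtain ⟨j, hj⟩ := hC.ne
    have hfin : Finite σ := hC.fin
    exact ⟨i, fun c hc => formal_of_rf F hj _ (h1 0) c hc⟩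
  · have hC := wgerms_closure hB false _ Z h
    obtain ⟨j, hj⟩ := hC.ne
    rw [unst_eq] at hs
    rcases root_unref natC nat_nat hC s₀ hs hn with h1 | ⟨t, ht, h1⟩
    · refine ⟨0, fun b hb => ?_⟩
      rw [h1, Nat.cast_zero, sub_zero]
      exact (becomes_local hf h0 hb (becomes_of hg)).1
    · obtain ⟨i, rfl⟩ := (mem_natC _).1 ht
      refine ⟨i, fun b hb => ?_⟩
      obtain ⟨c, rfl⟩ := Pool.Agent.Y229.PS.exists_factor
        (becomes_local hf h0 hb (becomes_of hg)).1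
      rw [Polynomial.eval_mul, root_of_becomes hf h0 hj (becomes_of hg) _ h1 c hb, mul_zero]
  · have hC := wgerms_closure hB true _ Z h
    obtain ⟨j, hj⟩ := hC.ne
    intro s₀ hk hs
    rw [unst_eq] at hs
    obtain ⟨t, ht, h1⟩ := hC.ref rfl _ (pole_unstab k Z s₀ hs hk)
    obtain ⟨i, rfl⟩ := (mem_natC _).1 ht
    have h2 := h1 0
    have e : s₀ - k - (i : ℂ) = s₀ - i - k := by ring
    rw [e] at h2
    exact ⟨i, fun c hc => root_of_becomes hf h0 hj (becomes_of hg) _ h2 c hc⟩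
  · have hC := wgerms_closure hB false _ Z h
    obtain ⟨j, hj⟩ := hC.ne
    have hfin : Finite σ := hC.fin
    exact WGerms.prod g hj g' h0 h0' Z W h h'

end Pool.Agent.K6.H39.RC
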